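import Mathlib

/-! Trilinear forms on invariant kernels: reduction, duality and the copy inequality. -/

namespace Pool.Agent.MP_1ca372_al.H73

open scoped ENNReal

universe u v

/-- indicator of a proposition -/
noncomputable def ind (p : Prop) : ℝ≥0∞ := by
  classical
  exact if p then 1 else 0

lemma ind_pos {p : Prop} (h : p) : ind p = 1 := by simp [ind, h]

lemma ind_neg {p : Prop} (h : ¬ p) : ind p = 0 := by simp [ind, h]

lemma ind_le_one (p : Prop) : ind p ≤ 1 := by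
  by_cases h : p <;> simp [ind, h]

lemma ind_mono {p q : Prop} (h : p → q) : ind p ≤ ind q := by
  by_cases hp : p
  · rw [ind_pos hp, ind_pos (h hp)]
  · rw [ind_neg hp]
    exact bot_le

lemma ind_congr {p q : Prop} (h : p ↔ q) : ind p = ind q := by rw [propext h]

lemma ind_sq (p : Prop) : ind p ^ 2 = ind p := by
  by_cases h : p <;> simp [ind, h]

lemma ind_le {p : Prop} {a : ℝ≥0∞} (h : p → 1 ≤ a) : ind p ≤ a := by
  by_cases hp : p
  · rw [ind_pos hp]
    exact h hp
  · rw [ind_neg hp]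
    exact bot_le

/-- square root -/
noncomputable def rt (a : ℝ≥0∞) : ℝ≥0∞ := a ^ (1 / 2 : ℝ)

lemma rt_sq (a : ℝ≥0∞) : rt a ^ 2 = a := by
  rw [rt, ← ENNReal.rpow_natCast, ← ENNReal.rpow_mul]
  norm_num

lemma rt_of_sq (a : ℝ≥0∞) : rt (a ^ 2) = a := by
  rw [rt, ← ENNReal.rpow_natCast, ← ENNReal.rpow_mul]
  norm_num

lemma rt_mono {a b : ℝ≥0∞} (h : a ≤ b) : rt a ≤ rt b := ENNReal.rpow_le_rpow h (by norm_num)

lemma rt_le {a b : ℝ≥0∞} (h : a ≤ b ^ 2) : rt a ≤ b := (rt_mono h).trans_eq (rt_of_sq b)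

lemma rt_mul (a b : ℝ≥0∞) : rt (a * b) = rt a * rt b :=
  ENNReal.mul_rpow_of_nonneg a b (by norm_num)

lemma rt_mul_self (a : ℝ≥0∞) : rt a * rt a = a := by rw [← sq, rt_sq]

lemma cs {ι : Type*} (a b : ι → ℝ≥0∞) :
    ∑' i, a i * b i ≤ rt (∑' i, a i ^ 2) * rt (∑' i, b i ^ 2) := by
  rw [ENNReal.tsum_eq_iSup_sum]
  refine iSup_le fun s => ?_
  refine (ENNReal.inner_le_Lp_mul_Lq s a b Real.HolderConjugate.two_two).trans ?_
  simp only [ENNReal.rpow_two]
  exact mul_le_mul' (rt_mono (ENNReal.sum_le_tsum s)) (rt_mono (ENNReal.sum_le_tsum s))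

variable {Γ : Type u} [Group Γ] {I : Type v}

/-- the free action on `Γ × I` -/
def act (γ : Γ) : Γ × I ≃ Γ × I := (Equiv.mulLeft γ).prodCongr (Equiv.refl I)

@[simp] lemma act_apply (γ g : Γ) (i : I) : act γ (g, i) = (γ * g, i) := rfl

def Inv2 {α : Type*} (f : Γ × I → Γ × I → α) : Prop := ∀ γ x y, f (act γ x) (act γ y) = f x y

def Inv3 {α : Type*} (f : Γ × I → Γ × I → Γ × I → α) : Prop :=
  ∀ γ x y z, f (act γ x) (act γ y) (act γ z) = f x y z

lemma Inv2.swap {α : Type*} {f : Γ × I → Γ × I → α} (h : Inv2 f) : Inv2 fun x y => f y x :=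
  fun γ x y => h γ y x

lemma Inv3.tsum {f : Γ × I → Γ × I → Γ × I → ℝ≥0∞} (h : Inv3 f) :
    Inv2 fun x y => ∑' z, f x y z := fun γ x y => by
  beta_reduce
  rw [← (act γ).tsum_eq]
  simp only [h γ x y]

/-- sum over the orbits of pairs -/
noncomputable def S2 (F : Γ × I → Γ × I → ℝ≥0∞) : ℝ≥0∞ := ∑' i : I, ∑' y, F (1, i) y

lemma S2_mono {F F' : Γ × I → Γ × I → ℝ≥0∞} (h : ∀ x y, F x y ≤ F' x y) : S2 F ≤ S2 F' :=
  ENNReal.tsum_le_tsum fun _ => ENNReal.tsum_le_tsum fun _ => h _ _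

lemma S2_congr {F F' : Γ × I → Γ × I → ℝ≥0∞} (h : ∀ x y, F x y = F' x y) : S2 F = S2 F' := by
  rw [show F = F' from funext₂ h]

lemma S2_mul (c : ℝ≥0∞) (F : Γ × I → Γ × I → ℝ≥0∞) : S2 (fun x y => c * F x y) = c * S2 F := by
  simp only [S2, ENNReal.tsum_mul_left]

lemma S2_eq (F : Γ × I → Γ × I → ℝ≥0∞) : S2 F = ∑' a : I × (Γ × I), F (1, a.1) a.2 :=
  (ENNReal.tsum_prod (f := fun i y => F (1, i) y)).symm

/-- mass transport -/
lemma S2_swap {F : Γ × I → Γ × I → ℝ≥0∞} (h : Inv2 F) : S2 (fun x y => F y x) = S2 F := by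
  unfold S2
  have h1 : ∀ G : Γ × I → ℝ≥0∞, ∑' y, G y = ∑' g : Γ, ∑' j : I, G (g, j) := fun G =>
    ENNReal.tsum_prod (f := fun g j => G (g, j))
  simp only [h1]
  rw [ENNReal.tsum_comm, ← (Equiv.inv Γ).tsum_eq, ENNReal.tsum_comm (α := I) (β := Γ)]
  refine tsum_congr fun g => ?_
  rw [ENNReal.tsum_comm]
  refine tsum_congr fun i => tsum_congr fun j => ?_
  rw [← h g]
  simp

lemma S2_tsum {ι : Type*} (F : ι → Γ × I → Γ × I → ℝ≥0∞) :
    S2 (fun x y => ∑' k, F k x y) = ∑' k, S2 (F k) := by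
  simp only [S2_eq]
  exact ENNReal.tsum_comm

lemma S2_sum {ι : Type*} (s : Finset ι) (F : ι → Γ × I → Γ × I → ℝ≥0∞) :
    S2 (fun x y => ∑ k ∈ s, F k x y) = ∑ k ∈ s, S2 (F k) := by
  simp only [S2_eq]
  exact Summable.tsum_finsetSum fun _ _ => ENNReal.summable

lemma S2_comm (F : Γ × I → Γ × I → Γ × I → ℝ≥0∞) :
    S2 (fun x y => ∑' z, F x y z) = S2 (fun x z => ∑' y, F x y z) :=
  tsum_congr fun _ => ENNReal.tsum_comm

noncomputable def nrm (f : Γ × I → Γ × I → ℝ≥0∞) : ℝ≥0∞ := rt (S2 fun x y => f x y ^ 2)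

lemma nrm_swap {f : Γ × I → Γ × I → ℝ≥0∞} (h : Inv2 f) : nrm (fun x y => f y x) = nrm f := by
  unfold nrm
  rw [S2_swap (F := fun x y => f x y ^ 2) fun γ x y => by simp only [h γ]]

lemma cs2 (f g : Γ × I → Γ × I → ℝ≥0∞) : S2 (fun x y => f x y * g x y) ≤ nrm f * nrm g := by
  simp only [nrm, S2_eq]
  exact cs _ _

lemma le_nrm {f : Γ × I → Γ × I → ℝ≥0∞} (h : Inv2 f) (x y : Γ × I) : f x y ≤ nrm f := by
  rw [← rt_of_sq (f x y), nrm, S2_eq]
  refine rt_mono (le_trans (le_of_eq ?_) (ENNReal.le_tsum (x.2, act x.1⁻¹ y)))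
  rw [← h x.1⁻¹]
  obtain ⟨g, i⟩ := x
  simp

/-- duality -/
lemma dual {F : Γ × I → Γ × I → ℝ≥0∞} {C : ℝ≥0∞}
    (h : ∀ k, Inv2 k → S2 (fun x y => F x y * k x y) ≤ C * nrm k) : nrm F ≤ C := by
  classical
  rcases eq_or_ne C ⊤ with rfl | hC
  · exact le_top
  have key : ∀ (s : Finset (I × (Γ × I))) (e : I × (Γ × I) → ℝ≥0∞),
      ∑ a ∈ s, F (1, a.1) a.2 * e a ≤ C * rt (∑ a ∈ s, e a ^ 2) := by
    intro s e
    have h1 := h (fun x y => if (x.2, act x.1⁻¹ y) ∈ s then e (x.2, act x.1⁻¹ y) else 0) (by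
      rintro γ ⟨g, i⟩ ⟨g', j⟩
      simp [mul_assoc])
    have h2 : ∀ y : Γ × I, act 1 y = y := fun y => by
      obtain ⟨g, i⟩ := y
      simp
    rw [nrm, S2_eq, S2_eq, tsum_eq_sum (s := s), tsum_eq_sum (s := s)] at h1
    · refine le_trans (le_of_eq ?_) (h1.trans_eq ?_)
      · exact Finset.sum_congr rfl fun a ha => by simp [h2, ha]
      · congr 2
        exact Finset.sum_congr rfl fun a ha => by simp [h2, ha]
    · intro a ha
      simp [h2, ha]
    · intro a ha
      simp [h2, ha]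
  have fin : ∀ a : I × (Γ × I), F (1, a.1) a.2 ≠ ⊤ := by
    intro a
    have h1 := key {a} fun _ => 1
    simp only [mul_one, Finset.sum_singleton, rt_of_sq] at h1
    exact ne_top_of_le_ne_top hC h1
  rw [nrm, S2_eq, ENNReal.tsum_eq_iSup_sum]
  refine rt_le (iSup_le fun s => ?_)
  have h1 := key s fun a => F (1, a.1) a.2
  simp only [← sq] at h1
  set Q := ∑ a ∈ s, F (1, a.1) a.2 ^ 2
  have hQ : Q ≠ ⊤ := ENNReal.sum_ne_top.2 fun a _ => ENNReal.pow_ne_top (fin a)
  rcases eq_or_ne (rt Q) 0 with h0 | h0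
  · rw [← rt_sq Q, h0]
    simp
  have h2 : rt Q ≠ ⊤ := fun h3 => hQ (by rw [← rt_sq Q, h3]; simp)
  have h3 : rt Q ≤ C := by
    rw [← ENNReal.mul_le_mul_iff_left h0 h2, rt_mul_self]
    exact h1
  rw [← rt_sq Q]
  exact pow_le_pow_left' h3 2

/-- the trilinear form of a class of triples -/
noncomputable def Lam (T : Γ × I → Γ × I → Γ × I → Prop) (f g h : Γ × I → Γ × I → ℝ≥0∞) :
    ℝ≥0∞ :=
  S2 fun x y => ∑' z, ind (T x y z) * (f x y * g y z * h z x)

def Bd (T : Γ × I → Γ × I → Γ × I → Prop) (M : ℝ≥0∞) : Prop :=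
  ∀ f g h, Inv2 f → Inv2 g → Inv2 h → Lam T f g h ≤ M * (nrm f * nrm g * nrm h)

variable {T T' : Γ × I → Γ × I → Γ × I → Prop} {M M' : ℝ≥0∞}

lemma Bd.mono (h : Bd T' M') (hT : ∀ x y z, T x y z → T' x y z) (hM : M' ≤ M) : Bd T M :=
  fun f g k hf hg hk => le_trans (S2_mono fun x y => ENNReal.tsum_le_tsum fun z =>
    mul_le_mul' (ind_mono (hT x y z)) le_rfl) ((h f g k hf hg hk).trans (mul_le_mul' hM le_rfl))

lemma Lam_cyc (hT : Inv3 T) {f g h : Γ × I → Γ × I → ℝ≥0∞} (hf : Inv2 f) (hg : Inv2 g)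
    (hh : Inv2 h) : Lam (fun y z x => T x y z) g h f = Lam T f g h := by
  unfold Lam
  rw [S2_comm, ← S2_swap (Inv3.tsum fun γ x y z => by simp only [hT γ, hf γ, hg γ, hh γ])]
  exact S2_congr fun y x => tsum_congr fun z => by ring

lemma Bd.cyc (hT : Inv3 T) (h : Bd T M) : Bd (fun y z x => T x y z) M := fun g k f hg hk hf => by
  rw [Lam_cyc hT hf hg hk]
  exact (h f g k hf hg hk).trans_eq (by ring)

lemma Bd.swap (h : Bd T M) : Bd (fun x z y => T x y z) M := fun f g k hf hg hk => by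
  have h1 := h _ _ _ hk.swap hg.swap hf.swap
  rw [nrm_swap hf, nrm_swap hg, nrm_swap hk] at h1
  refine le_trans (le_of_eq ?_) (h1.trans_eq (by ring))
  unfold Lam
  rw [S2_comm]
  exact S2_congr fun x y => tsum_congr fun z => by ring

lemma Bd.or (h : Bd T M) (h' : Bd T' M') : Bd (fun x y z => T x y z ∨ T' x y z) (M + M') := by
  intro f g k hf hg hk
  rw [add_mul]
  refine le_trans ?_ (add_le_add (h f g k hf hg hk) (h' f g k hf hg hk))
  simp only [Lam, S2, ← ENNReal.tsum_add, ← add_mul]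
  refine ENNReal.tsum_le_tsum fun i => ENNReal.tsum_le_tsum fun y =>
    ENNReal.tsum_le_tsum fun z => mul_le_mul' (ind_le ?_) le_rfl
  rintro (h1 | h1)
  · rw [ind_pos h1]
    exact le_self_add
  · rw [ind_pos h1]
    exact le_add_self

/-- moving the third point to one of boundedly many places -/
lemma Bd.reduce (h : Bd T' M) {R R' : Γ × I → Γ × I → Γ × I → Prop} (hR : Inv3 R)
    (hR' : Inv3 R') {N : ℝ≥0∞} (hN : ∀ z x, ∑' w, ind (R z x w) ≤ N)
    (hN' : ∀ z y, ∑' w, ind (R' z y w) ≤ N)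
    (hT : ∀ x y z, T x y z → ∃ w, T' x y w ∧ R z x w ∧ R' z y w) : Bd T (N * M) := by
  intro f g k hf hg hk
  have hG : Inv2 fun y w => rt (∑' z, (ind (R' z y w) * g y z) ^ 2) := fun γ y w =>
    congrArg rt (Inv3.tsum (f := fun y w z => (ind (R' z y w) * g y z) ^ 2)
      (fun γ y w z => by simp only [hR' γ, hg γ]) γ y w)
  have hK : Inv2 fun w x => rt (∑' z, (ind (R z x w) * k z x) ^ 2) := fun γ w x =>
    congrArg rt (Inv3.tsum (f := fun w x z => (ind (R z x w) * k z x) ^ 2)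
      (fun γ w x z => by simp only [hR γ, hk γ]) γ w x)
  have nG : nrm (fun y w => rt (∑' z, (ind (R' z y w) * g y z) ^ 2)) ≤ rt N * nrm g := by
    simp only [nrm, rt_sq, ← rt_mul, ← S2_mul]
    rw [S2_comm]
    refine rt_mono (S2_mono fun y z => ?_)
    simp only [mul_pow, ind_sq, ENNReal.tsum_mul_right]
    exact mul_le_mul' (hN' z y) le_rfl
  have nK : nrm (fun w x => rt (∑' z, (ind (R z x w) * k z x) ^ 2)) ≤ rt N * nrm k := by
    rw [← nrm_swap hK, ← nrm_swap hk]
    simp only [nrm, rt_sq, ← rt_mul, ← S2_mul]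
    rw [S2_comm]
    refine rt_mono (S2_mono fun x z => ?_)
    simp only [mul_pow, ind_sq, ENNReal.tsum_mul_right]
    exact mul_le_mul' (hN z x) le_rfl
  have h1 := h f _ _ hf hG hK
  refine le_trans ?_ (h1.trans ?_)
  · refine S2_mono fun x y => ?_
    calc ∑' z, ind (T x y z) * (f x y * g y z * k z x)
        ≤ ∑' z, ∑' w, ind (T' x y w) *
            (f x y * ((ind (R' z y w) * g y z) * (ind (R z x w) * k z x))) := by
          refine ENNReal.tsum_le_tsum fun z => ?_
          by_cases hz : T x y z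
          · obtain ⟨w, h2, h3, h4⟩ := hT x y z hz
            refine le_trans (le_of_eq ?_) (ENNReal.le_tsum w)
            rw [ind_pos hz, ind_pos h2, ind_pos h3, ind_pos h4]
            ring
          · rw [ind_neg hz, zero_mul]
            exact bot_le
      _ ≤ _ := by
          rw [ENNReal.tsum_comm]
          refine ENNReal.tsum_le_tsum fun w => ?_
          rw [ENNReal.tsum_mul_left, ENNReal.tsum_mul_left, mul_assoc]
          exact mul_le_mul' le_rfl (mul_le_mul' le_rfl (cs _ _))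
  · calc _ ≤ M * (nrm f * (rt N * nrm g) * (rt N * nrm k)) := by gcongr
      _ = rt N * rt N * M * (nrm f * nrm g * nrm k) := by ring
      _ = _ := by rw [rt_mul_self]

lemma bd_diag : Bd (fun x _ w : Γ × I => w = x) 1 := by
  intro f g k hf hg hk
  have h1 := cs2 f fun x y => g y x
  rw [nrm_swap hg] at h1
  calc _ ≤ S2 fun x y => nrm k * (f x y * g y x) := by
        refine S2_mono fun x y => ?_
        rw [tsum_eq_single x fun z hz => by rw [ind_neg hz, zero_mul], ind_pos rfl, one_mul,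
          mul_comm]
        exact mul_le_mul' (le_nrm hk x x) le_rfl
    _ ≤ nrm k * (nrm f * nrm g) := by
        rw [S2_mul]
        exact mul_le_mul' le_rfl h1
    _ = _ := by ring

/-- the trivial bound -/
lemma bd_ball {R : Γ × I → Γ × I → Prop} (hR : Inv2 R) {N : ℝ≥0∞} (h1 : 1 ≤ N)
    (hN : ∀ y, ∑' w, ind (R y w) ≤ N) : Bd (fun x y _ => R y x) N := by
  have h2 := (bd_diag (Γ := Γ) (I := I)).reduce (T := fun x y _ => R y x)
    (R := fun _ x w => w = x) (R' := fun _ y w => R y w)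
    (fun γ z x w => propext (act γ).apply_eq_iff_eq) (fun γ z y w => hR γ y w) (N := N)
    (fun z x => by
      rw [tsum_eq_single x fun w hw => ind_neg hw, ind_pos rfl]
      exact h1) (fun _ y => hN y) fun x y z hz => ⟨x, rfl, rfl, hz⟩
  rwa [mul_one] at h2

lemma Bd.conv (hT : Inv3 T) (h : Bd T M) {f g : Γ × I → Γ × I → ℝ≥0∞} (hf : Inv2 f)
    (hg : Inv2 g) :
    nrm (fun y z => ∑' x, ind (T x y z) * (f x y * g z x)) ≤ M * (nrm f * nrm g) := by
  refine dual fun k hk => ?_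
  have h1 := h f k g hf hk hg
  rw [← Lam_cyc hT hf hk hg] at h1
  refine le_trans (le_of_eq ?_) (h1.trans_eq (by ring))
  refine S2_congr fun y z => ?_
  rw [← ENNReal.tsum_mul_right]
  exact tsum_congr fun x => by ring

/-- the copy inequality -/
lemma bd_copy (hT : Inv3 T) {ι : Type*} (s : Finset ι)
    {U V : ι → Γ × I → Γ × I → Γ × I → Prop} (hU : ∀ i, Inv3 (U i)) (hV : ∀ i, Inv3 (V i))
    {m m' : ι → ℝ≥0∞} (bU : ∀ i ∈ s, Bd (U i) (m i)) (bV : ∀ i ∈ s, Bd (V i) (m' i))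
    (hc : ∀ x z y y', T x y z → T x y' z → ∃ i ∈ s, U i x y y' ∧ V i z y y')
    (hM : ∑ i ∈ s, m i * m' i ≤ M ^ 2) : Bd T M := by
  intro f g k hf hg hk
  have hT' : Inv3 fun y z x => T x y z := fun γ y z x => hT γ x y z
  rw [← Lam_cyc hT hf hg hk, ← Lam_cyc hT' hg hk hf]
  have h1 := cs2 k fun z x => ∑' y, ind (T x y z) * (f x y * g y z)
  have h2 : nrm (fun z x => ∑' y, ind (T x y z) * (f x y * g y z)) ≤ M * (nrm f * nrm g) := by
    refine rt_le ?_
    calc _ ≤ S2 fun z x => ∑ i ∈ s, ∑' y, ∑' y', ind (U i x y y') * (f x y * f x y') *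
            (ind (V i z y y') * (g y z * g y' z)) := by
          refine S2_mono fun z x => ?_
          rw [sq, ← ENNReal.tsum_mul_right, ← Summable.tsum_finsetSum fun _ _ => ENNReal.summable]
          refine ENNReal.tsum_le_tsum fun y => ?_
          rw [← ENNReal.tsum_mul_left, ← Summable.tsum_finsetSum fun _ _ => ENNReal.summable]
          refine ENNReal.tsum_le_tsum fun y' => ?_
          by_cases hy : T x y z
          · by_cases hy' : T x y' z
            · obtain ⟨i, hi, h3, h4⟩ := hc x z y y' hy hy'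
              refine le_trans (le_of_eq ?_) (Finset.single_le_sum (f := fun i =>
                ind (U i x y y') * (f x y * f x y') * (ind (V i z y y') * (g y z * g y' z)))
                (fun _ _ => bot_le) hi)
              rw [ind_pos hy, ind_pos hy', ind_pos h3, ind_pos h4]
              ring
            · simp [ind_neg hy']
          · simp [ind_neg hy]
      _ = ∑ i ∈ s, S2 fun y y' => (∑' x, ind (U i x y y') * (f x y * f x y')) *
            ∑' z, ind (V i z y y') * (g y z * g y' z) := by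
          rw [S2_sum]
          refine Finset.sum_congr rfl fun i _ => ?_
          rw [S2_comm, ← S2_swap]
          · simp only [← ENNReal.tsum_mul_right]
            simp only [← ENNReal.tsum_mul_left]
            unfold S2
            refine tsum_congr fun j => ?_
            rw [ENNReal.tsum_comm]
            simp only [ENNReal.tsum_comm (f := fun z y' => ind (U i _ (1, j) y') * _ * _)]
            exact ENNReal.tsum_comm
          · refine Inv3.tsum fun γ z y x => ?_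
            rw [← (act γ).tsum_eq]
            simp only [hU i γ, hV i γ, hf γ, hg γ]
      _ ≤ ∑ i ∈ s, m i * (nrm f * nrm f) * (m' i * (nrm g * nrm g)) := by
          refine Finset.sum_le_sum fun i hi => (cs2 _ _).trans (mul_le_mul' ?_ ?_)
          · have h3 := (bU i hi).conv (hU i) hf hf.swap
            rwa [nrm_swap hf] at h3
          · have h3 := (bV i hi).conv (hV i) hg.swap hg
            rwa [nrm_swap hg] at h3
      _ = (∑ i ∈ s, m i * m' i) * (nrm f * nrm g) ^ 2 := by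
          rw [Finset.sum_mul]
          exact Finset.sum_congr rfl fun i _ => by ring
      _ ≤ _ := by
          rw [mul_pow M]
          exact mul_le_mul' hM le_rfl
  refine le_trans (le_of_eq ?_) (h1.trans ((mul_le_mul' le_rfl h2).trans_eq (by ring)))
  refine S2_congr fun z x => ?_
  rw [← ENNReal.tsum_mul_left]
  exact tsum_congr fun y => by ring

end Pool.Agent.MP_1ca372_al.H73
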