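import Mathlib

/-! The arithmetic of reduced triangles. -/

namespace Pool.Agent.MP_1ca372_al.H73

/-- the angle condition at a vertex with adjacent sides `(a, b)`, `(a', b')` -/
def Ang (a b a' b' a'' b'' : ℕ) : Prop :=
  (a + 2 * b + a' ≤ a'' + 2 * b'' ∧ a' + b' + b ≤ a'' + b'' + 1) ∨
  (a' + 2 * b' + a ≤ a'' + 2 * b'' ∧ a + b + b' ≤ a'' + b'' + 1)

lemma Ang.symm {a b a' b' a'' b'' : ℕ} (h : Ang a b a' b' a'' b'') : Ang a' b' a b a'' b'' :=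
  Or.symm h

def Lb (s a b a' b' : ℕ) : Prop := b ≤ 2 ∧ a' ≤ 2 ∧ 4 * (a + b') ≤ 3 * s + 8

variable {a1 b1 a2 b2 a3 b3 s t : ℕ}

lemma arith1 (h1 : Ang a1 b1 a2 b2 a3 b3) (h2 : Ang a1 b1 a3 b3 a2 b2)
    (h3 : Ang a2 b2 a3 b3 a1 b1)
    (hs : 3 * a1 + 4 * b1 ≤ s ∨ 3 * a2 + 4 * b2 ≤ s ∨ 3 * a3 + 4 * b3 ≤ s) :
    Lb s a1 b1 a2 b2 ∨ Lb s a2 b2 a1 b1 ∨ Lb s a1 b1 a3 b3 ∨ Lb s a3 b3 a1 b1 ∨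
      Lb s a2 b2 a3 b3 ∨ Lb s a3 b3 a2 b2 := by
  unfold Ang Lb at *
  rcases h1 with h1 | h1 <;> rcases h2 with h2 | h2 <;> rcases h3 with h3 | h3 <;> omega

lemma arith2 (h1 : Ang a1 b1 a2 b2 a3 b3) (h2 : Ang a1 b1 a3 b3 a2 b2)
    (h3 : Ang a2 b2 a3 b3 a1 b1) (ht : b1 ≤ t) (ht' : b2 ≤ t) (hs : 3 * b3 + 7 * t + 8 ≤ s) :
    3 * a1 + 4 * b1 ≤ s ∨ 3 * a2 + 4 * b2 ≤ s ∨ 3 * a3 + 4 * b3 ≤ s := by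
  unfold Ang at *
  rcases h1 with h1 | h1 <;> rcases h2 with h2 | h2 <;> rcases h3 with h3 | h3 <;> omega

lemma arith3 (h1 : Ang a1 b1 a2 b2 a3 b3) (h2 : Ang a1 b1 a3 b3 a2 b2)
    (h3 : Ang a2 b2 a3 b3 a1 b1) (ht : a1 ≤ t) (ht' : a2 ≤ t) (hs : 2 * a3 + 7 * t + 8 ≤ s) :
    3 * a1 + 4 * b1 ≤ s ∨ 3 * a2 + 4 * b2 ≤ s ∨ 3 * a3 + 4 * b3 ≤ s := by
  unfold Ang at *
  rcases h1 with h1 | h1 <;> rcases h2 with h2 | h2 <;> rcases h3 with h3 | h3 <;> omega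

lemma arith4 (h1 : Ang a1 b1 a2 b2 a3 b3) (h2 : Ang a1 b1 a3 b3 a2 b2)
    (h3 : Ang a2 b2 a3 b3 a1 b1)
    (hs : 3 * a1 + 4 * b1 ≤ s ∨ 3 * a2 + 4 * b2 ≤ s ∨ 3 * a3 + 4 * b3 ≤ s) :
    a1 + b1 ≤ s + 2 ∧ a2 + b2 ≤ s + 2 ∧ a3 + b3 ≤ s + 2 := by
  unfold Ang at *
  rcases h1 with h1 | h1 <;> rcases h2 with h2 | h2 <;> rcases h3 with h3 | h3 <;> omega

end Pool.Agent.MP_1ca372_al.H73
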