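import Mathlib

/-! Buildings of type affine C2 and property (RD). -/

namespace Pool.Agent.MP_1ca372_al.H73

/-- The one-skeleton of the Coxeter complex of type affine C2: the square grid on `ℤ × ℤ` in which
every unit square is cut by the diagonal joining its two corners of even coordinate sum. -/
def cox : SimpleGraph (ℤ × ℤ) where
  Adj p q := p ≠ q ∧ |p.1 - q.1| ≤ 1 ∧ |p.2 - q.2| ≤ 1 ∧
    (p.1 = q.1 ∨ p.2 = q.2 ∨ (Even (p.1 + p.2) ∧ Even (q.1 + q.2)))
  symm := ⟨fun p q h => ⟨h.1.symm, by rw [abs_sub_comm]; exact h.2.1,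
    by rw [abs_sub_comm]; exact h.2.2.1, by have := h.2.2.2; tauto⟩⟩
  loopless := ⟨fun _ h => h.1 rfl⟩

/-- The flag complex of `G` (simplices are the cliques) is a building of type affine C2 with system
of apartments `𝒜`: any two simplices lie in an apartment, and two apartments containing two
simplices are isomorphic by an isomorphism fixing both simplices pointwise. -/
structure IsBuilding {V : Type*} (G : SimpleGraph V) (𝒜 : Set (cox ↪g G)) : Prop where
  two : ∀ A B : Set V, G.IsClique A → G.IsClique B → ∃ φ ∈ 𝒜, A ∪ B ⊆ Set.range φ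
  iso : ∀ φ ∈ 𝒜, ∀ ψ ∈ 𝒜, ∀ A B : Set V, G.IsClique A → G.IsClique B →
    A ∪ B ⊆ Set.range φ → A ∪ B ⊆ Set.range ψ →
    ∃ g : cox ≃g cox, ∀ p, φ p ∈ A ∪ B → ψ (g p) = φ p

/-- Property (RD) for the word length of the generating family `gen`. -/
def RD {Γ : Type*} [Group Γ] {n : ℕ} (gen : Fin n → Γ) : Prop :=
  ∃ C : ℝ, ∃ s : ℕ, ∀ f g : Γ →₀ ℂ,
    (∑' x : Γ, ‖∑ y ∈ f.support, f y * g (y⁻¹ * x)‖ ^ 2) ≤
      C * (∑ y ∈ f.support, ‖f y‖ ^ 2 *
        (1 + ((sInf {k : ℕ | ∃ w : List (Fin n), w.length = k ∧ (w.map gen).prod = y} : ℕ) : ℝ)) ^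
          (2 * s)) * ∑ z ∈ g.support, ‖g z‖ ^ 2

end Pool.Agent.MP_1ca372_al.H73
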