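import Pool.Agent.MP_1ca372_al.H73.Ana
import Pool.Agent.MP_1ca372_al.H73.Arith

/-! The recursion over scales. -/

namespace Pool.Agent.MP_1ca372_al.H73

open scoped ENNReal

universe u v

/-- a vector valued distance -/
structure VD (X : Type*) where
  a : X → X → ℕ
  b : X → X → ℕ
  a_symm : ∀ x y, a x y = a y x
  b_symm : ∀ x y, b x y = b y x
  a_self : ∀ x, a x x = 0
  b_self : ∀ x, b x x = 0
  tri1 : ∀ x y z, a x z + 2 * b x z ≤ a x y + 2 * b x y + (a y z + 2 * b y z)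
  tri2 : ∀ x y z, a x z + b x z ≤ a x y + b x y + (a y z + b y z)
  split : ∀ x y i j, i ≤ a x y → j ≤ b x y →
    ∃ w, a x w = i ∧ b x w = j ∧ a w y + i = a x y ∧ b w y + j = b x y

namespace VD

variable {X : Type*} (d : VD X)

/-- `x0`, `y0` lie between `x` and `y` -/
def Ch (x x0 y0 y : X) : Prop :=
  d.a x y = d.a x x0 + d.a x0 y0 + d.a y0 y ∧ d.b x y = d.b x x0 + d.b x0 y0 + d.b y0 y

def An (x y z : X) : Prop := Ang (d.a x y) (d.b x y) (d.a x z) (d.b x z) (d.a y z) (d.b y z)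

structure Core (x y z x0 y0 z0 : X) : Prop where
  xy : d.Ch x x0 y0 y
  xz : d.Ch x x0 z0 z
  yz : d.Ch y y0 z0 z
  h1 : Ang (d.a x0 y0) (d.b x0 y0) (d.a x0 z0) (d.b x0 z0) (d.a y0 z0) (d.b y0 z0)
  h2 : Ang (d.a x0 y0) (d.b x0 y0) (d.a y0 z0) (d.b y0 z0) (d.a x0 z0) (d.b x0 z0)
  h3 : Ang (d.a x0 z0) (d.b x0 z0) (d.a y0 z0) (d.b y0 z0) (d.a x0 y0) (d.b x0 y0)

def Small (s : ℕ) (x y z : X) : Prop :=
  3 * d.a x y + 4 * d.b x y ≤ s ∨ 3 * d.a x z + 4 * d.b x z ≤ s ∨ 3 * d.a y z + 4 * d.b y z ≤ s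

def Tl (t : ℕ) (x y : X) : Prop := d.a x y ≤ t ∧ d.b x y ≤ t

def Cl (s t1 t2 t3 : ℕ) (x y z : X) : Prop :=
  ∃ x0 y0 z0, d.Core x y z x0 y0 z0 ∧ d.Small s x0 y0 z0 ∧ d.Tl t1 x x0 ∧ d.Tl t2 y y0 ∧
    d.Tl t3 z z0

def At (F : Finset (ℕ × ℕ)) (x y w : X) : Prop :=
  ∃ p ∈ F, d.a x w = p.1 ∧ d.b x w = p.2 ∧ d.a w y + p.1 = d.a x y ∧ d.b w y + p.2 = d.b x y

def Lab (r t : ℕ) (x y z : X) : Prop :=
  d.b x y ≤ 3 * t ∧ d.a z y ≤ 3 * t ∧ 4 * (d.a x y + d.b z y) ≤ 3 * r + 20 * t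

variable {d} {x y z x0 y0 z0 : X} {s t t1 t2 t3 : ℕ}

lemma Ch.symm (h : d.Ch x x0 y0 y) : d.Ch y y0 x0 x := by
  unfold Ch at *
  rw [d.a_symm y x, d.a_symm y y0, d.a_symm y0 x0, d.a_symm x0 x, d.b_symm y x, d.b_symm y y0,
    d.b_symm y0 x0, d.b_symm x0 x]
  omega

lemma Core.swap (h : d.Core x y z x0 y0 z0) : d.Core x z y x0 z0 y0 := by
  refine ⟨h.xz, h.xy, h.yz.symm, ?_, ?_, ?_⟩ <;> rw [d.a_symm z0 y0, d.b_symm z0 y0]
  exacts [h.h1.symm, h.h3, h.h2]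

lemma Core.cyc (h : d.Core x y z x0 y0 z0) : d.Core y z x y0 z0 x0 := by
  refine ⟨h.yz, h.xy.symm, h.xz.symm, ?_, ?_, ?_⟩ <;>
    rw [d.a_symm z0 x0, d.b_symm z0 x0, d.a_symm y0 x0, d.b_symm y0 x0]
  exacts [h.h2.symm, h.h3.symm, h.h1]

lemma Cl.swap (h : d.Cl s t1 t2 t3 x y z) : d.Cl s t1 t3 t2 x z y := by
  obtain ⟨x0, y0, z0, h1, h2, h3, h4, h5⟩ := h
  refine ⟨x0, z0, y0, h1.swap, ?_, h3, h5, h4⟩
  unfold Small at *
  rw [d.a_symm z0 y0, d.b_symm z0 y0]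
  tauto

lemma Cl.cyc (h : d.Cl s t1 t2 t3 x y z) : d.Cl s t2 t3 t1 y z x := by
  obtain ⟨x0, y0, z0, h1, h2, h3, h4, h5⟩ := h
  refine ⟨y0, z0, x0, h1.cyc, ?_, h4, h5, h3⟩
  unfold Small at *
  rw [d.a_symm z0 x0, d.b_symm z0 x0, d.a_symm y0 x0, d.b_symm y0 x0]
  tauto

lemma Cl.mono {s' u1 u2 u3 : ℕ} (h : d.Cl s t1 t2 t3 x y z) (hs : s ≤ s') (h1 : t1 ≤ u1)
    (h2 : t2 ≤ u2) (h3 : t3 ≤ u3) : d.Cl s' u1 u2 u3 x y z := by
  obtain ⟨x0, y0, z0, g1, g2, g3, g4, g5⟩ := h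
  refine ⟨x0, y0, z0, g1, ?_, ?_, ?_, ?_⟩ <;> simp only [Small, Tl] at * <;> omega

/-- moving the end of a chain inwards -/
lemma Ch.move {w : X} {i j : ℕ} (h : d.Ch x x0 z0 z) (h1 : d.a z w = i) (h2 : d.b z w = j)
    (h3 : d.a w z0 + i = d.a z z0) (h4 : d.b w z0 + j = d.b z z0) :
    d.Ch x x0 z0 w ∧ d.a w x + i = d.a z x ∧ d.b w x + j = d.b z x := by
  have e1 := d.tri1 x x0 z0
  have e2 := d.tri2 x x0 z0
  have e3 := d.tri1 x z0 w
  have e4 := d.tri2 x z0 w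
  have e5 := d.tri1 x w z
  have e6 := d.tri2 x w z
  unfold Ch at *
  rw [d.a_symm z0 w, d.b_symm z0 w, d.a_symm w x, d.b_symm w x, d.a_symm z x, d.b_symm z x]
  rw [d.a_symm z0 w, d.b_symm z0 w] at e3 e4
  rw [d.a_symm w z, d.b_symm w z] at e5 e6
  rw [d.a_symm z0 z, d.b_symm z0 z] at h
  omega

lemma Cl.coarse {L : ℕ} (ht : 0 < t) (h : d.Cl s t1 t2 (L * t) x y z) :
    ∃ w, d.Cl s t1 t2 t x y w ∧
      d.At ((Finset.range (L + 1) ×ˢ Finset.range (L + 1)).image fun p => (p.1 * t, p.2 * t))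
        z x w ∧
      d.At ((Finset.range (L + 1) ×ˢ Finset.range (L + 1)).image fun p => (p.1 * t, p.2 * t))
        z y w := by
  obtain ⟨x0, y0, z0, g1, g2, g3, g4, g5⟩ := h
  obtain ⟨w, h1, h2, h3, h4⟩ := d.split z z0 (d.a z z0 / t * t) (d.b z z0 / t * t)
    (Nat.div_mul_le_self _ _) (Nat.div_mul_le_self _ _)
  obtain ⟨k1, k2⟩ := g1.xz.move h1 h2 h3 h4
  obtain ⟨k3, k4⟩ := g1.yz.move h1 h2 h3 h4
  have hm : (d.a z z0 / t * t, d.b z z0 / t * t) ∈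
      (Finset.range (L + 1) ×ˢ Finset.range (L + 1)).image fun p => (p.1 * t, p.2 * t) := by
    refine Finset.mem_image.2 ⟨(d.a z z0 / t, d.b z z0 / t), ?_, rfl⟩
    simp only [Finset.mem_product, Finset.mem_range, Nat.lt_succ_iff]
    exact ⟨Nat.div_le_of_le_mul (by rw [mul_comm]; exact g5.1),
      Nat.div_le_of_le_mul (by rw [mul_comm]; exact g5.2)⟩
  refine ⟨w, ⟨x0, y0, z0, ⟨g1.xy, k1, k3, g1.h1, g1.h2, g1.h3⟩, g2, g3, g4, ?_⟩,
    ⟨_, hm, h1, h2, k2⟩, ⟨_, hm, h1, h2, k4⟩⟩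
  have m1 := Nat.div_add_mod' (d.a z z0) t
  have m2 := Nat.div_add_mod' (d.b z z0) t
  have m3 := Nat.mod_lt (d.a z z0) ht
  have m4 := Nat.mod_lt (d.b z z0) ht
  constructor <;> omega

lemma Cl.lab {r : ℕ} (ht : 2 ≤ t) (h : d.Cl r t t t x y z) :
    (d.Lab r t y x z ∨ d.Lab r t z x y) ∨ (d.Lab r t x y z ∨ d.Lab r t z y x) ∨
      (d.Lab r t x z y ∨ d.Lab r t y z x) := by
  obtain ⟨x0, y0, z0, g1, g2, g3, g4, g5⟩ := h
  have h1 := arith1 g1.h1 g1.h2 g1.h3 g2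
  have h2 := g1.xy
  have h3 := g1.xz
  have h4 := g1.yz
  simp only [Lab, Lb, Ch, Tl] at *
  rw [d.a_symm y x, d.b_symm y x, d.a_symm z x, d.b_symm z x, d.a_symm z y, d.b_symm z y]
  rw [d.a_symm y0 y, d.b_symm y0 y] at h2
  rw [d.a_symm z0 z, d.b_symm z0 z] at h3 h4
  rcases h1 with h1 | h1 | h1 | h1 | h1 | h1
  · exact Or.inl (Or.inl (by omega))
  · exact Or.inl (Or.inr (by omega))
  · exact Or.inr (Or.inl (Or.inl (by omega)))
  · exact Or.inr (Or.inl (Or.inr (by omega)))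
  · exact Or.inr (Or.inr (Or.inl (by omega)))
  · exact Or.inr (Or.inr (Or.inr (by omega)))

lemma Lab.copy {r : ℕ} {y' : X} (hc : ∀ x y z, ∃ x0 y0 z0, d.Core x y z x0 y0 z0) (ht : 2 ≤ t)
    (hr' : r ≤ 600 * t) (h : d.Lab r t x y z) (h' : d.Lab r t x y' z) :
    ∃ i ∈ (Finset.range 1000).filter (fun i => i * t ≤ 3 * r / 2 + 79 * t),
      d.Cl ((i + 1) * t) (600 * t) (600 * t) (600 * t) x y y' ∧
      d.Cl (3 * r / 2 + 79 * t - i * t) (600 * t) (600 * t) (600 * t) z y y' := by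
  obtain ⟨x1, y1, w1, g⟩ := hc x y y'
  obtain ⟨z2, y2, w2, k⟩ := hc z y y'
  have e1 := d.tri1 y x y'
  have e2 := d.tri2 y z y'
  rw [d.a_symm y x, d.b_symm y x] at e1
  rw [d.a_symm y z, d.b_symm y z] at e2
  have g1 := g.xy
  have g2 := g.xz
  have g3 := g.yz
  have k1 := k.xy
  have k2 := k.xz
  have k3 := k.yz
  have m1 := Nat.div_add_mod' (3 * d.b y y' + 21 * t + 8) t
  have m2 := Nat.mod_lt (3 * d.b y y' + 21 * t + 8) (show 0 < t by omega)
  simp only [Lab, Ch] at h h' g1 g2 g3 k1 k2 k3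
  rw [d.a_symm y1 y, d.b_symm y1 y] at g1
  rw [d.a_symm w1 y', d.b_symm w1 y'] at g2 g3
  rw [d.a_symm y2 y, d.b_symm y2 y] at k1
  rw [d.a_symm w2 y', d.b_symm w2 y'] at k2 k3
  refine ⟨(3 * d.b y y' + 21 * t + 8) / t, ?_,
    ⟨x1, y1, w1, g, arith2 (t := 3 * t) g.h1 g.h2 g.h3 ?_ ?_ ?_, ?_, ?_, ?_⟩,
    ⟨z2, y2, w2, k, arith3 (t := 3 * t) k.h1 k.h2 k.h3 ?_ ?_ ?_, ?_, ?_, ?_⟩⟩
  · simp only [Finset.mem_filter, Finset.mem_range]
    refine ⟨Nat.div_lt_of_lt_mul ?_, ?_⟩ <;> omega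
  · omega
  · omega
  · rw [add_mul]
    omega
  all_goals first | omega | (constructor <;> omega)

lemma Cl.diam {r : ℕ} (h : d.Cl r r r r x y z) : d.a y x + d.b y x ≤ 5 * r + 2 := by
  obtain ⟨x0, y0, z0, g1, g2, g3, g4, g5⟩ := h
  have h1 := arith4 g1.h1 g1.h2 g1.h3 g2
  have h2 := g1.xy
  simp only [Ch, Tl] at *
  rw [d.a_symm y0 y, d.b_symm y0 y] at h2
  rw [d.a_symm y x, d.b_symm y x]
  omega

lemma far {R : ℕ} (hc : ∀ x y z, ∃ x0 y0 z0, d.Core x y z x0 y0 z0)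
    (h : d.a x y + d.b x y ≤ R) (z : X) :
    ∃ w, d.Cl (4 * R) (4 * R) (4 * R) (4 * R) x y w ∧
      d.At (Finset.range (5 * R + 3) ×ˢ Finset.range (5 * R + 3)) x z w ∧
      d.At (Finset.range (5 * R + 3) ×ˢ Finset.range (5 * R + 3)) y z w := by
  obtain ⟨x0, y0, z0, g⟩ := hc x y z
  have g1 := g.xy
  have hs : d.Small (4 * R) x0 y0 z0 := Or.inl (by unfold Ch at g1; omega)
  have h1 := arith4 g.h1 g.h2 g.h3 hs
  obtain ⟨k1, k2⟩ := g.xz.move (w := z0) rfl rfl (by simp [d.a_self]) (by simp [d.b_self])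
  obtain ⟨k3, k4⟩ := g.yz.move (w := z0) rfl rfl (by simp [d.a_self]) (by simp [d.b_self])
  have k5 := k1
  have k6 := k3
  simp only [Ch, d.a_self, d.b_self] at g1 k5 k6
  rw [d.a_symm y0 y, d.b_symm y0 y] at g1
  rw [d.a_symm z0 x, d.b_symm z0 x, d.a_symm z z0, d.b_symm z z0, d.a_symm z x, d.b_symm z x] at k2
  rw [d.a_symm z0 y, d.b_symm z0 y, d.a_symm z z0, d.b_symm z z0, d.a_symm z y, d.b_symm z y] at k4
  refine ⟨z0, ⟨x0, y0, z0, ⟨g.xy, k1, k3, g.h1, g.h2, g.h3⟩, hs, ?_, ?_, ?_⟩,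
    ⟨(d.a x z0, d.b x z0), ?_, rfl, rfl, ?_⟩, ⟨(d.a y z0, d.b y z0), ?_, rfl, rfl, ?_⟩⟩ <;>
    simp only [Tl, d.a_self, d.b_self, Finset.mem_product, Finset.mem_range] <;> omega

end VD

variable {Γ : Type u} [Group Γ] {I : Type v}

/-- an invariant vector valued distance with bounded geometry -/
structure Geo (d : VD (Γ × I)) (N : ℕ) : Prop where
  hN : 1 ≤ N
  a_inv : Inv2 d.a
  b_inv : Inv2 d.b
  cnt : ∀ x y i j,
    ∑' w, ind (d.a x w = i ∧ d.b x w = j ∧ d.a w y + i = d.a x y ∧ d.b w y + j = d.b x y) ≤ N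
  ball : ∀ x, ∑' y, ind (d.a x y + d.b x y ≤ 1) ≤ N
  core : ∀ x y z, ∃ x0 y0 z0, d.Core x y z x0 y0 z0

namespace Geo

variable {d : VD (Γ × I)} {N : ℕ} (G : Geo d N)
include G

lemma inv_Cl (s t1 t2 t3 : ℕ) : Inv3 (d.Cl s t1 t2 t3) := by
  intro γ x y z
  unfold VD.Cl
  rw [(act γ).surjective.exists₃]
  have h : ∀ x0 y0 z0, d.Core (act γ x) (act γ y) (act γ z) (act γ x0) (act γ y0) (act γ z0) ↔
      d.Core x y z x0 y0 z0 := by
    intro x0 y0 z0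
    constructor <;> rintro ⟨h1, h2, h3, h4, h5, h6⟩ <;> constructor <;>
      simp_all only [VD.Ch, G.a_inv γ, G.b_inv γ, and_self]
  simp only [h, VD.Small, VD.Tl, G.a_inv γ, G.b_inv γ]

lemma inv_At (F : Finset (ℕ × ℕ)) : Inv3 (d.At F) := fun γ x y z => by
  simp only [VD.At, G.a_inv γ, G.b_inv γ]

lemma inv_Lab (r t : ℕ) : Inv3 (d.Lab r t) := fun γ x y z => by
  simp only [VD.Lab, G.a_inv γ, G.b_inv γ]

lemma cnt_At (F : Finset (ℕ × ℕ)) (x y : Γ × I) : ∑' w, ind (d.At F x y w) ≤ F.card * N := by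
  calc _ ≤ ∑' w, ∑ p ∈ F, ind (d.a x w = p.1 ∧ d.b x w = p.2 ∧ d.a w y + p.1 = d.a x y ∧
        d.b w y + p.2 = d.b x y) := by
        refine ENNReal.tsum_le_tsum fun w => ind_le ?_
        rintro ⟨p, hp, h⟩
        exact le_trans (ind_pos h).ge (Finset.single_le_sum (f := fun p : ℕ × ℕ =>
          ind (d.a x w = p.1 ∧ d.b x w = p.2 ∧ d.a w y + p.1 = d.a x y ∧
            d.b w y + p.2 = d.b x y)) (fun _ _ => bot_le) hp)
    _ ≤ _ := by
        rw [Summable.tsum_finsetSum fun _ _ => ENNReal.summable, ← nsmul_eq_mul]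
        exact Finset.sum_le_card_nsmul _ _ _ fun p _ => G.cnt x y p.1 p.2

lemma ball_pow (k : ℕ) (x : Γ × I) : ∑' y, ind (d.a x y + d.b x y ≤ k + 1) ≤ N ^ (k + 1) := by
  induction k with
  | zero => simpa using G.ball x
  | succ k ih =>
    calc _ ≤ ∑' y, ∑' w, ind (d.a x w + d.b x w ≤ k + 1) * ind (d.a w y + d.b w y ≤ 1) := by
          refine ENNReal.tsum_le_tsum fun y => ind_le fun h => ?_
          have : ∃ w, d.a x w + d.b x w ≤ k + 1 ∧ d.a w y + d.b w y ≤ 1 := by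
            rcases Nat.eq_zero_or_pos (d.a x y) with h1 | h1
            · obtain ⟨w, h2⟩ := d.split x y 0 (d.b x y - 1) bot_le (Nat.sub_le _ _)
              exact ⟨w, by omega⟩
            · obtain ⟨w, h2⟩ := d.split x y (d.a x y - 1) (d.b x y) (Nat.sub_le _ _) le_rfl
              exact ⟨w, by omega⟩
          obtain ⟨w, h1, h2⟩ := this
          refine le_trans (le_of_eq ?_) (ENNReal.le_tsum w)
          rw [ind_pos h1, ind_pos h2, one_mul]
      _ ≤ ∑' w, ind (d.a x w + d.b x w ≤ k + 1) * N := by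
          rw [ENNReal.tsum_comm]
          refine ENNReal.tsum_le_tsum fun w => ?_
          rw [ENNReal.tsum_mul_left]
          exact mul_le_mul' le_rfl (G.ball w)
      _ ≤ _ := by
          rw [ENNReal.tsum_mul_right, pow_succ _ (k + 1)]
          exact mul_le_mul' ih le_rfl

lemma base (r : ℕ) : Bd (d.Cl r r r r) (N ^ (5 * r + 2)) := by
  have h1 : (1 : ℝ≥0∞) ≤ N := by exact_mod_cast G.hN
  refine (bd_ball (R := fun y x => d.a y x + d.b y x ≤ 5 * r + 1 + 1)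
    (fun γ x y => by simp only [G.a_inv γ, G.b_inv γ]) (one_le_pow₀ h1)
    (G.ball_pow (5 * r + 1))).mono (fun x y z h => h.diam) le_rfl

lemma coarse1 {s t1 t2 t : ℕ} {M : ℝ≥0∞} (ht : 0 < t) (h : Bd (d.Cl s t1 t2 t) M) :
    Bd (d.Cl s t2 (600 * t) t1) (601 ^ 2 * N * M) := by
  have hF : ∀ z x, ∑' w, ind (d.At ((Finset.range (600 + 1) ×ˢ Finset.range (600 + 1)).image
      fun p => (p.1 * t, p.2 * t)) z x w) ≤ 601 ^ 2 * N := by
    intro z x
    refine (G.cnt_At _ z x).trans (mul_le_mul' ?_ le_rfl)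
    have h1 : ((Finset.range (600 + 1) ×ˢ Finset.range (600 + 1)).image
        fun p : ℕ × ℕ => (p.1 * t, p.2 * t)).card ≤ 601 ^ 2 :=
      Finset.card_image_le.trans (by simp)
    exact_mod_cast h1
  have h2 : Bd (d.Cl s t1 t2 (600 * t)) (601 ^ 2 * N * M) :=
    h.reduce (G.inv_At _) (G.inv_At _) hF hF fun x y z hz => hz.coarse ht
  exact (h2.cyc (G.inv_Cl _ _ _ _)).mono (fun x y z hz => hz.cyc.cyc) le_rfl

lemma coarse {s t : ℕ} {M : ℝ≥0∞} (ht : 0 < t) (h : Bd (d.Cl s t t t) M) :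
    Bd (d.Cl s (600 * t) (600 * t) (600 * t)) ((601 ^ 2 * N) ^ 3 * M) := by
  exact (G.coarse1 ht (G.coarse1 ht (G.coarse1 ht h))).mono (fun _ _ _ h => h)
    (le_of_eq (by ring))

lemma step {m : ℕ → ℝ≥0∞} (hm : ∀ r, Bd (d.Cl r r r r) (m r)) {r : ℕ} (hr : 800 ≤ r) {μ : ℝ≥0∞}
    (hμ : ∀ r1 r2, 4 * (r1 + r2) ≤ 7 * r → m r1 * m r2 ≤ μ ^ 2) :
    Bd (d.Cl r r r r) (192 * (601 ^ 2 * N) ^ 6 * μ) := by
  obtain ⟨t, ht, h1, h2⟩ : ∃ t, 2 ≤ t ∧ 400 * t ≤ r ∧ r ≤ 600 * t := ⟨r / 400, by omega⟩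
  have h0 : 0 < t := by omega
  have hL : Bd (d.Lab r t) (32 * (601 ^ 2 * N) ^ 3 * μ) := by
    refine bd_copy (G.inv_Lab r t)
      ((Finset.range 1000).filter (fun i => i * t ≤ 3 * r / 2 + 79 * t))
      (fun i => G.inv_Cl _ _ _ _) (fun i => G.inv_Cl _ _ _ _)
      (m := fun i => (601 ^ 2 * N) ^ 3 * m ((i + 1) * t))
      (m' := fun i => (601 ^ 2 * N) ^ 3 * m (3 * r / 2 + 80 * t - i * t))
      (fun i _ => G.coarse h0 ((hm _).mono (fun x y z h => ?_) le_rfl))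
      (fun i hi => G.coarse h0 ((hm _).mono (fun x y z h => ?_) le_rfl))
      (fun x z y y' h h' => h.copy G.core ht h2 h') ?_
    · have : t ≤ (i + 1) * t := Nat.le_mul_of_pos_left _ (Nat.succ_pos i)
      exact h.mono le_rfl this this this
    · have := (Finset.mem_filter.1 hi).2
      refine h.mono ?_ ?_ ?_ ?_ <;> omega
    · refine (Finset.sum_le_card_nsmul _ _ (((601 ^ 2 * N) ^ 3 * μ) ^ 2) fun i hi => ?_).trans ?_
      · have := (Finset.mem_filter.1 hi).2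
        calc _ = ((601 ^ 2 * N) ^ 3) ^ 2 * (m ((i + 1) * t) * m (3 * r / 2 + 80 * t - i * t)) := by
              ring
          _ ≤ ((601 ^ 2 * N) ^ 3) ^ 2 * μ ^ 2 := by
              refine mul_le_mul' le_rfl (hμ _ _ ?_)
              rw [add_mul]
              omega
          _ = _ := by ring
      · rw [nsmul_eq_mul, mul_assoc 32, mul_pow 32]
        refine mul_le_mul' ?_ le_rfl
        have h3 : ((Finset.range 1000).filter (fun i => i * t ≤ 3 * r / 2 + 79 * t)).card ≤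
            32 ^ 2 := (Finset.card_filter_le _ _).trans (by simp)
        exact_mod_cast h3
  have i0 := G.inv_Lab r t
  have c1 := hL.cyc i0
  have c2 := c1.cyc fun γ y z x => i0 γ x y z
  have h3 := ((c1.swap.or c1).or ((hL.or c2.swap).or (hL.swap.or c2))).mono
    (T := d.Cl r t t t) (fun x y z h => h.lab ht) le_rfl
  refine (G.coarse h0 h3).mono (fun x y z h => h.mono le_rfl h2 h2 h2) (le_of_eq ?_)
  ring

lemma poly : ∃ (A : ℝ) (D : ℕ), 0 ≤ A ∧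
    ∀ r : ℕ, Bd (d.Cl r r r r) (ENNReal.ofReal (A * (1 + r) ^ D)) := by
  have hN : (1 : ℝ) ≤ N := by exact_mod_cast G.hN
  set C : ℝ := 192 * (601 ^ 2 * N) ^ 6 with hC
  have hC0 : 0 < C := by positivity
  obtain ⟨D, hD⟩ := exists_pow_lt_of_lt_one (inv_pos.2 hC0) (show (15 / 16 : ℝ) < 1 by norm_num)
  have hD' : C * (15 / 16) ^ D ≤ 1 := by
    rw [← mul_inv_cancel₀ hC0.ne']
    exact mul_le_mul_of_nonneg_left hD.le hC0.le
  set η : ℝ := 5 * Real.log N with hη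
  have hη0 : 0 ≤ η := mul_nonneg (by norm_num) (Real.log_nonneg hN)
  have hb : ∀ r : ℕ, Bd (d.Cl r r r r) (ENNReal.ofReal (N ^ (5 * r + 2))) := by
    intro r
    rw [ENNReal.ofReal_pow (by positivity), ENNReal.ofReal_natCast]
    exact G.base r
  have key : ∀ k r : ℕ, Bd (d.Cl r r r r)
      (ENNReal.ofReal (N ^ 4002 * (1 + r) ^ D * Real.exp (η * (7 / 8) ^ k * r))) := by
    intro k
    induction k with
    | zero =>
      intro r
      refine (hb r).mono (fun _ _ _ h => h) (ENNReal.ofReal_le_ofReal ?_)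
      have h1 : Real.exp (η * (7 / 8) ^ 0 * r) = N ^ (5 * r) := by
        rw [← Real.exp_log (show (0 : ℝ) < N ^ (5 * r) by positivity), Real.log_pow, hη]
        congr 1
        push_cast
        ring
      rw [h1, pow_add, mul_comm]
      refine mul_le_mul_of_nonneg_right ?_ (by positivity)
      exact (pow_le_pow_right₀ hN (by norm_num)).trans
        (le_mul_of_one_le_right (by positivity) (one_le_pow₀ (by simp)))
    | succ k ih =>
      intro r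
      rcases lt_or_ge r 800 with hr | hr
      · refine (hb r).mono (fun _ _ _ h => h) (ENNReal.ofReal_le_ofReal ?_)
        rw [mul_assoc]
        exact (pow_le_pow_right₀ hN (by omega)).trans (le_mul_of_one_le_right (by positivity)
          (one_le_mul_of_one_le_of_one_le (one_le_pow₀ (by simp))
            (Real.one_le_exp (by positivity))))
      have h1 := G.step ih hr (μ := ENNReal.ofReal ((15 / 16) ^ D *
        (N ^ 4002 * (1 + r) ^ D * Real.exp (η * (7 / 8) ^ (k + 1) * r)))) fun r1 r2 h => by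
          rw [← ENNReal.ofReal_mul (by positivity), ← ENNReal.ofReal_pow (by positivity)]
          refine ENNReal.ofReal_le_ofReal ?_
          have h2 : (4 : ℝ) * (r1 + r2) ≤ 7 * r := by exact_mod_cast h
          have h3 : (800 : ℝ) ≤ r := by exact_mod_cast hr
          have h4 : (1 + r1 : ℝ) * (1 + r2) ≤ (15 / 16 * (1 + r)) ^ 2 := by
            have h5 : (1 + r1 : ℝ) + (1 + r2) ≤ 2 * (15 / 16 * (1 + r)) := by linarith
            have h6 : (0 : ℝ) ≤ (1 + r1) + (1 + r2) := by positivity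
            nlinarith [sq_nonneg ((1 + r1 : ℝ) - (1 + r2)), pow_le_pow_left₀ h6 h5 2]
          have h5 : Real.exp (η * (7 / 8) ^ k * r1) * Real.exp (η * (7 / 8) ^ k * r2) ≤
              Real.exp (η * (7 / 8) ^ (k + 1) * r) ^ 2 := by
            rw [sq, ← Real.exp_add, ← Real.exp_add, Real.exp_le_exp, pow_succ]
            have h6 : 0 ≤ η * (7 / 8) ^ k := by positivity
            nlinarith
          calc _ = (N ^ 4002) ^ 2 * ((1 + r1 : ℝ) * (1 + r2)) ^ D *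
                (Real.exp (η * (7 / 8) ^ k * r1) * Real.exp (η * (7 / 8) ^ k * r2)) := by
                rw [mul_pow]
                ring
            _ ≤ (N ^ 4002) ^ 2 * ((15 / 16 * (1 + r)) ^ 2) ^ D *
                Real.exp (η * (7 / 8) ^ (k + 1) * r) ^ 2 := by gcongr
            _ = _ := by
                rw [← pow_mul (15 / 16 * (1 + r) : ℝ), mul_comm 2 D, pow_mul, mul_pow (15 / 16 : ℝ)]
                ring
      refine h1.mono (fun _ _ _ h => h) ?_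
      have h2 : (192 * (601 ^ 2 * N) ^ 6 : ℝ≥0∞) = ENNReal.ofReal C := by
        rw [hC, ENNReal.ofReal_mul (by norm_num), ENNReal.ofReal_pow (by positivity),
          ENNReal.ofReal_mul (by norm_num), ENNReal.ofReal_pow (by positivity)]
        simp
      rw [h2, ← ENNReal.ofReal_mul hC0.le, ← mul_assoc]
      exact ENNReal.ofReal_le_ofReal (mul_le_of_le_one_left (by positivity) hD')
  refine ⟨N ^ 4002 * Real.exp 1, D, by positivity, fun r => ?_⟩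
  obtain ⟨k, hk⟩ := exists_pow_lt_of_lt_one (show 0 < (η * r + 1)⁻¹ by positivity)
    (show (7 / 8 : ℝ) < 1 by norm_num)
  refine (key k r).mono (fun _ _ _ h => h) (ENNReal.ofReal_le_ofReal ?_)
  rw [mul_right_comm _ (Real.exp 1)]
  refine mul_le_mul_of_nonneg_left (Real.exp_le_exp.2 ?_) (by positivity)
  have h1 : (η * r + 1) * (7 / 8) ^ k ≤ 1 := by
    refine le_trans (mul_le_mul_of_nonneg_left hk.le (by positivity)) (le_of_eq ?_)
    exact mul_inv_cancel₀ (by positivity)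
  have h2 : (0 : ℝ) ≤ (7 / 8) ^ k := by positivity
  nlinarith

/-- the polynomial bound for triples with one short side -/
theorem main : ∃ (A : ℝ) (D : ℕ), 0 ≤ A ∧ ∀ R : ℕ,
    Bd (fun x y _ => d.a x y + d.b x y ≤ R) (ENNReal.ofReal (A * (1 + R) ^ D)) := by
  obtain ⟨A, D, hA, h⟩ := G.poly
  refine ⟨25 * N * A * 4 ^ D, D + 2, by positivity, fun R => ?_⟩
  refine ((h (4 * R)).reduce (R := fun z x w => d.At _ x z w) (R' := fun z y w => d.At _ y z w)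
    (fun γ z x w => G.inv_At _ γ x z w) (fun γ z x w => G.inv_At _ γ x z w) (fun z x => G.cnt_At _ x z) (fun z x => G.cnt_At _ x z)
    fun x y z hz => VD.far G.core hz z).mono (fun _ _ _ h => h) ?_
  rw [← Nat.cast_mul, ← ENNReal.ofReal_natCast, ← ENNReal.ofReal_mul (by positivity)]
  refine ENNReal.ofReal_le_ofReal ?_
  simp only [Finset.card_product, Finset.card_range]
  push_cast
  have h0 : (0 : ℝ) ≤ R := Nat.cast_nonneg R
  calc _ ≤ (5 * (1 + R)) * (5 * (1 + R)) * N * (A * (4 * (1 + R : ℝ)) ^ D) := by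
        gcongr <;> linarith
    _ = _ := by
        rw [mul_pow]
        ring

end Geo

end Pool.Agent.MP_1ca372_al.H73
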