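import Pool.Agent.MP_1ca372_al.H73.Retr
import Pool.Agent.MP_1ca372_al.H73.Rec

/-! The vector valued distance on the special vertices of a building. -/

namespace Pool.Agent.MP_1ca372_al.H73

namespace VD

variable {X : Type*} (d : VD X)

def Bt (x w y : X) : Prop := d.a x w + d.a w y = d.a x y ∧ d.b x w + d.b w y = d.b x y

variable {d}

lemma uniq (h0 : ∀ x y, d.a x y = 0 → d.b x y = 0 → x = y)
    (h1 : ∀ x y w w', d.a x w + d.b x w = 1 → d.a x w' = d.a x w → d.b x w' = d.b x w →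
      d.Bt x w y → d.Bt x w' y → w = w')
    {x y w w' : X} (e1 : d.a x w' = d.a x w) (e2 : d.b x w' = d.b x w) (k : d.Bt x w y)
    (k' : d.Bt x w' y) : w = w' := by
  induction hn : d.a x w + d.b x w generalizing x with
  | zero => rw [← h0 x w (by omega) (by omega), ← h0 x w' (by omega) (by omega)]
  | succ n ih =>
    obtain ⟨i, j, h2, h3, h4⟩ : ∃ i j, i + j = 1 ∧ i ≤ d.a x w ∧ j ≤ d.b x w := by
      rcases Nat.eq_zero_or_pos (d.a x w) with h | h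
      · exact ⟨0, 1, rfl, by omega, by omega⟩
      · exact ⟨1, 0, rfl, by omega, by omega⟩
    obtain ⟨v, hv⟩ := d.split x w i j h3 h4
    obtain ⟨v', hv'⟩ := d.split x w' i j (by omega) (by omega)
    have t1 := d.tri1 v w y
    have t2 := d.tri2 v w y
    have t3 := d.tri1 x v y
    have t4 := d.tri2 x v y
    have t5 := d.tri1 v' w' y
    have t6 := d.tri2 v' w' y
    have t7 := d.tri1 x v' y
    have t8 := d.tri2 x v' y
    unfold Bt at k k'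
    obtain rfl : v = v' := h1 x y v v' (by omega) (by omega) (by omega) (by constructor <;> omega)
      (by constructor <;> omega)
    exact ih (x := v) (by omega) (by omega) (by constructor <;> omega) (by constructor <;> omega)
      (by omega)

lemma core (h0 : ∀ x y, d.a x y = 0 → d.b x y = 0 → x = y)
    (h1 : ∀ x y z, (∀ w, d.Bt x w y → d.Bt x w z → w = x) → d.An x y z) (x y z : X) :
    ∃ x0 y0 z0, d.Core x y z x0 y0 z0 := by
  induction hn : d.a x y + d.b x y + (d.a x z + d.b x z) + (d.a y z + d.b y z)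
    using Nat.strong_induction_on generalizing x y z with
  | _ n ih =>
  have step : ∀ x y z, d.a x y + d.b x y + (d.a x z + d.b x z) + (d.a y z + d.b y z) = n →
      d.An x y z ∨ ∃ x0 y0 z0, d.Core x y z x0 y0 z0 := by
    intro x y z hn
    by_cases hr : ∀ w, d.Bt x w y → d.Bt x w z → w = x
    · exact Or.inl (h1 x y z hr)
    push Not at hr
    obtain ⟨w, k1, k2, k3⟩ := hr
    have k4 : ¬ (d.a x w = 0 ∧ d.b x w = 0) := fun h => k3 (h0 x w h.1 h.2).symm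
    unfold Bt at k1 k2
    obtain ⟨x0, y0, z0, g⟩ := ih _ (by omega) w y z rfl
    have g1 := g.xy
    have g2 := g.xz
    have t1 := d.tri1 x w x0
    have t2 := d.tri2 x w x0
    have t3 := d.tri1 x x0 y
    have t4 := d.tri2 x x0 y
    have t5 := d.tri1 x0 y0 y
    have t6 := d.tri2 x0 y0 y
    refine Or.inr ⟨x0, y0, z0, ?_, ?_, g.yz, g.h1, g.h2, g.h3⟩ <;> unfold Ch at * <;> omega
  rcases step x y z hn with k1 | k1
  · rcases step y z x (by rw [d.a_symm y x, d.b_symm y x, d.a_symm z x, d.b_symm z x]; omega)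
      with k2 | ⟨x0, y0, z0, g⟩
    · rcases step z x y (by rw [d.a_symm z y, d.b_symm z y, d.a_symm z x, d.b_symm z x]; omega)
        with k3 | ⟨x0, y0, z0, g⟩
      · unfold An at *
        rw [d.a_symm y x, d.b_symm y x, d.a_symm z x, d.b_symm z x] at k2
        rw [d.a_symm z y, d.b_symm z y, d.a_symm z x, d.b_symm z x] at k3
        refine ⟨x, y, z, ?_, ?_, ?_, k1, k2.symm, k3⟩ <;> simp [Ch, d.a_self, d.b_self]
      · exact ⟨_, _, _, g.cyc⟩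
    · exact ⟨_, _, _, g.cyc.cyc⟩
  · exact k1

end VD

variable {V : Type*} {G : SimpleGraph V} {𝒜 : Set (cox ↪g G)} {n1 n2 : V → V → ℕ}

lemma arE {u v u' v' N1 N2 : ℕ} {s : ℤ × ℤ} (h0 : v' + 2 ≤ u') (h1 : l1 (1, 0) s + 1 = u' + v')
    (h2 : l1 (2, 0) s + 2 ≤ u' + v') (h3 : li (2, 0) s + 2 ≤ u')
    (h4 : l1 (2 - (u : ℤ), (v : ℤ)) s ≤ N2) (h5 : li (2 - (u : ℤ), (v : ℤ)) s ≤ N1) :
    u + v' ≤ N1 ∧ u' + v' + u ≤ N2 + v + 2 := by
  unfold l1 li at *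
  omega

lemma arR {u v u' v' N1 N2 : ℕ} {s : ℤ × ℤ} (k : v ≤ u) (h1 : l1 (0, 0) s = u' + v')
    (h2 : li (0, 0) s = u') (h4 : l1 ((u : ℤ), (v : ℤ)) s ≤ N2)
    (h5 : li ((u : ℤ), (v : ℤ)) s ≤ N1) (hA : ¬ (0 < v ∧ 0 < s.1 ∧ 0 < s.2))
    (hD : ¬ (v < u ∧ (s.2.natAbs : ℤ) < s.1)) :
    (u + v' ≤ N1 ∧ u' + v' + u ≤ N2 + v) ∨ (u' + v ≤ N1 ∧ u + v + u' ≤ N2 + v') := by
  unfold l1 li at *
  omega

/-- the reflection exchanging `(0, 0)` and `(2, 0)` -/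
def rfl2 : cox ≃g cox := refl1.trans (trans 2 0 rfl)

@[simp] lemma rfl2_apply (x y : ℤ) : rfl2 (x, y) = (2 - x, y) := by
  simp [rfl2, sub_eq_add_neg]

namespace BD

variable (h : BD G 𝒜 n1 n2)
include h

lemma sp_at {φ : cox ↪g G} (hφ : φ ∈ 𝒜) (a b : ℤ) (hab : (a + b) % 2 = 0) : Sp 𝒜 (φ (a, b)) :=
  (h.sp_iff hφ _).2 hab

lemma nc {x y : V} (hx : Sp 𝒜 x) (hy : Sp 𝒜 y) : ∃ φ ∈ 𝒜, ∃ u v : ℕ, v ≤ u ∧ (u + v) % 2 = 0 ∧
    φ (0, 0) = x ∧ φ (u, v) = y ∧ n1 x y = u ∧ n2 x y = u + v := by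
  obtain ⟨φ, hφ, u, v, h1, rfl, rfl⟩ := h.norm_chart hx y
  have h2 := (h.sp_iff hφ _).1 hy
  refine ⟨φ, hφ, u, v, h1, by unfold Ev at h2; omega, rfl, rfl, ?_, ?_⟩
  · rw [h.n1_eq φ hφ (0, 0) _ rfl h2, li]
    omega
  · rw [h.n2_eq φ hφ, l1]
    omega

lemma ns {x y : V} (hx : Sp 𝒜 x) (hy : Sp 𝒜 y) :
    n1 x y ≤ n2 x y ∧ n2 x y ≤ 2 * n1 x y ∧ n2 x y % 2 = 0 ∧ n1 y x = n1 x y ∧ n2 y x = n2 x y := by
  obtain ⟨φ, hφ, u, v, h1, h2, rfl, rfl, h3, h4⟩ := h.nc hx hy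
  rw [h.n1_eq φ hφ _ (0, 0) ((h.sp_iff hφ _).1 hy) rfl, h.n2_eq φ hφ (u, v), li, l1]
  omega

lemma vals {φ : cox ↪g G} (hφ : φ ∈ 𝒜) (a b c e : ℤ) (s t : ℕ) (h1 : (a + b) % 2 = 0)
    (h2 : (c + e) % 2 = 0) (h3 : c = a + s) (h4 : e = b + t) (h5 : t ≤ s) :
    n1 (φ (a, b)) (φ (c, e)) = s ∧ n2 (φ (a, b)) (φ (c, e)) = s + t := by
  rw [h.n1_eq φ hφ (a, b) (c, e) h1 h2, h.n2_eq φ hφ, li, l1]
  omega

/-- the vector valued distance -/
def vd : VD {v // Sp 𝒜 v} where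
  a x y := n2 x y - n1 x y
  b x y := n1 x y - n2 x y / 2
  a_symm x y := by rw [(h.ns x.2 y.2).2.2.2.1, (h.ns x.2 y.2).2.2.2.2]
  b_symm x y := by rw [(h.ns x.2 y.2).2.2.2.1, (h.ns x.2 y.2).2.2.2.2]
  a_self x := by
    obtain ⟨φ, hφ, u, v, -, -, h1, h2, h3, h4⟩ := h.nc x.2 x.2
    have := φ.injective (h1.trans h2.symm)
    simp only [Prod.mk.injEq] at this
    omega
  b_self x := by
    obtain ⟨φ, hφ, u, v, -, -, h1, h2, h3, h4⟩ := h.nc x.2 x.2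
    have := φ.injective (h1.trans h2.symm)
    simp only [Prod.mk.injEq] at this
    omega
  tri1 x y z := by
    have h1 := h.ns x.2 y.2
    have h2 := h.ns x.2 z.2
    have h3 := h.ns y.2 z.2
    have h4 := (h.tri x y z).2 x.2 y.2 z.2
    omega
  tri2 x y z := by
    have h1 := h.ns x.2 y.2
    have h2 := h.ns x.2 z.2
    have h3 := h.ns y.2 z.2
    have h4 := (h.tri x y z).1
    omega
  split := by
    intro x y i j hi hj
    obtain ⟨φ, hφ, u, v, h1, h2, h5, h6, h3, h4⟩ := h.nc x.2 y.2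
    have k1 := h.vals hφ 0 0 (i + 2 * j) i (i + 2 * j) i rfl (by omega) (by omega) (by omega)
      (by omega)
    have k2 := h.vals hφ (i + 2 * j) i u v (u - (i + 2 * j)) (v - i) (by omega) (by omega)
      (by omega) (by omega) (by omega)
    rw [h5] at k1
    rw [h6] at k2
    refine ⟨⟨φ (i + 2 * j, i), h.sp_at hφ _ _ (by omega)⟩, ?_⟩
    simp only
    omega

lemma vd_n (x y : {v // Sp 𝒜 v}) :
    n1 x y = h.vd.a x y + 2 * h.vd.b x y ∧ n2 x y = 2 * h.vd.a x y + 2 * h.vd.b x y := by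
  have h1 := h.ns x.2 y.2
  simp only [vd]
  omega

lemma vd_zero (x y : {v // Sp 𝒜 v}) (h1 : h.vd.a x y = 0) (h2 : h.vd.b x y = 0) : x = y := by
  have h3 := h.vd_n x y
  obtain ⟨φ, hφ, u, v, k1, -, k2, k3, k4, -⟩ := h.nc x.2 y.2
  obtain rfl : u = 0 := by omega
  obtain rfl : v = 0 := by omega
  exact Subtype.ext (k2.symm.trans k3)

omit h in
lemma germA {φ : cox ↪g G} {ρ : V → ℤ × ℤ} (r : Retr 𝒜 n1 n2 φ ρ) {w z : V} (hw : Sp 𝒜 w)
    (e1 : n1 (φ (0, 0)) w = 1) (e2 : n2 (φ (0, 0)) w = 2) (e3 : n2 w z + 2 = n2 (φ (0, 0)) z)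
    (p1 : 0 < (ρ z).1) (p2 : 0 < (ρ z).2) : w = φ (1, 1) := by
  refine r.eq2 w ?_
  have h1 := r.l1_0 w
  have h2 := r.li_0 w hw
  have h3 := r.l1_le w z
  have h4 := r.l1_0 z
  unfold l1 li at *
  refine Prod.ext ?_ ?_ <;> omega

omit h in
lemma germD {φ : cox ↪g G} {ρ : V → ℤ × ℤ} (r : Retr 𝒜 n1 n2 φ ρ) {w z : V} (hw : Sp 𝒜 w)
    (hz : Sp 𝒜 z) (e1 : n1 (φ (0, 0)) w = 2) (e2 : n2 (φ (0, 0)) w = 2)
    (e3 : n1 w z + 2 = n1 (φ (0, 0)) z) (p1 : ((ρ z).2.natAbs : ℤ) < (ρ z).1) : ρ w = (2, 0) := by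
  have h1 := r.l1_0 w
  have h2 := r.li_0 w hw
  have h3 := r.li_le w z hw hz
  have h4 := r.li_0 z hz
  have h5 := (r.ev z).2 hz
  unfold l1 li Ev at *
  refine Prod.ext ?_ ?_ <;> omega

lemma vd_unit (x y w w' : {v // Sp 𝒜 v}) (h1 : h.vd.a x w + h.vd.b x w = 1)
    (h2 : h.vd.a x w' = h.vd.a x w) (h3 : h.vd.b x w' = h.vd.b x w) (k : h.vd.Bt x w y)
    (k' : h.vd.Bt x w' y) : w = w' := by
  obtain ⟨φ, hφ, u, v, k1, k2, k3, k4, k5, k6⟩ := h.nc x.2 y.2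
  obtain ⟨ρ, r⟩ := h.retr' hφ
  obtain ⟨ρ', r'⟩ := h.retr' (h.sat φ hφ rfl2)
  have hy : ρ y = ((u : ℤ), (v : ℤ)) := by rw [← k4, r.id]
  have hy' : ρ' y = (2 - (u : ℤ), (v : ℤ)) := by
    rw [← r'.id (2 - u, v), ← k4]
    simp
  have n0 := h.vd_n x y
  have key : ∀ w : {v // Sp 𝒜 v}, h.vd.a x w + h.vd.b x w = 1 → h.vd.Bt x w y →
      w.1 = if h.vd.a x w = 1 then φ (1, 1) else φ (2, 0) := by
    intro w h1 k
    have n1' := h.vd_n x w
    have n2' := h.vd_n w y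
    unfold VD.Bt at k
    rw [← k3] at n0 n1' k5 k6
    split_ifs with hc
    · refine germA r w.2 (by omega) (by omega) (z := y) (by omega) ?_ ?_ <;> rw [hy] <;> omega
    · have g1 := germD r w.2 y.2 (by omega) (by omega) (by omega) (by rw [hy]; omega)
      have g2 := r'.adj _ _ (r.adj1 w (by rw [g1, adj_iff]; omega))
      have g3 := r'.id (1, 0)
      have g4 := r'.li_le w y w.2 y.2
      have g5 := r'.eq0 w
      simp only [cmp_apply, rfl2_apply, sub_zero] at g3 g5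
      rw [show (2 - 1 : ℤ) = 1 from rfl] at g3
      rw [g3] at g2
      rw [hy'] at g4
      refine g5 ?_
      generalize ρ' w = s at *
      obtain ⟨s, t⟩ := s
      rw [adj_iff] at g2
      unfold li at g4
      refine Prod.ext ?_ ?_ <;> omega
  exact Subtype.ext (by rw [key w h1 k, key w' (by omega) k', h2])

lemma vd_ang (x y z : {v // Sp 𝒜 v}) (hr : ∀ w, h.vd.Bt x w y → h.vd.Bt x w z → w = x) :
    h.vd.An x y z := by
  obtain ⟨φ, hφ, u, v, k1, k2, k3, k4, k5, k6⟩ := h.nc x.2 y.2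
  obtain ⟨χ, hχ, u', v', m1, m2, m3, m4, m5, m6⟩ := h.nc x.2 z.2
  obtain ⟨ρ, r⟩ := h.retr' hφ
  have hy : ρ y = ((u : ℤ), (v : ℤ)) := by rw [← k4, r.id]
  have n0 := h.vd_n x y
  have n1' := h.vd_n x z
  have n2' := h.vd_n y z
  have hred : ∀ a b : ℕ, (a = 1 ∧ b = 1 ∧ 0 < v ∧ 0 < v' ∨ a = 2 ∧ b = 0 ∧ v < u ∧ v' < u') →
      χ (a, b) ≠ φ (a, b) := by
    intro a b hab he
    have hs : ((a : ℤ) + b) % 2 = 0 := by omega
    have s1 := h.vals hφ 0 0 a b a b rfl hs (by omega) (by omega) (by omega)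
    have s2 := h.vals hφ a b u v (u - a) (v - b) hs (by omega) (by omega) (by omega) (by omega)
    have s3 := h.vals hχ a b u' v' (u' - a) (v' - b) hs (by omega) (by omega) (by omega) (by omega)
    rw [k3] at s1
    rw [k4] at s2
    rw [m4, he] at s3
    have s4 := h.vd_n x ⟨_, h.sp_at hφ a b hs⟩
    have s5 := h.vd_n ⟨_, h.sp_at hφ a b hs⟩ y
    have s6 := h.vd_n ⟨_, h.sp_at hφ a b hs⟩ z
    simp only at s4 s5 s6
    have s7 := hr ⟨_, h.sp_at hφ a b hs⟩ (by constructor <;> omega) (by constructor <;> omega)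
    rw [s7, h.vd.a_self, h.vd.b_self] at s4
    omega
  have q1 := r.l1_0 z
  have q2 := r.li_0 z z.2
  have q3 := r.l1_le y z
  have q4 := r.li_le y z y.2 z.2
  rw [hy] at q3 q4
  rw [k3] at q1 q2
  have hA : ¬ (0 < v ∧ 0 < (ρ z).1 ∧ 0 < (ρ z).2) := by
    rintro ⟨a1, a2, a3⟩
    have a4 : 0 < v' := by
      unfold l1 li at *
      omega
    have a5 : v' ≤ u' := m1
    have s1 := h.vals hχ 0 0 1 1 1 1 rfl rfl rfl rfl le_rfl
    have s2 := h.vals hχ 1 1 u' v' (u' - 1) (v' - 1) rfl (by omega) (by omega) (by omega) (by omega)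
    rw [m3, ← k3] at s1
    rw [m4] at s2
    rw [← k3] at m6
    have s3 := germA r (h.sp_at hχ 1 1 rfl) s1.1 s1.2 (z := z) (by omega) a2 a3
    exact hred 1 1 (by omega) s3
  unfold VD.An Ang
  by_cases hD : v < u ∧ ((ρ z).2.natAbs : ℤ) < (ρ z).1
  · have a4 : v' < u' := by
      unfold l1 li at *
      omega
    have s1 := h.vals hχ 0 0 2 0 2 0 rfl rfl rfl rfl (by omega)
    have s2 := h.vals hχ 2 0 u' v' (u' - 2) v' rfl (by omega) (by omega) (by omega) (by omega)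
    have s3 := h.n2_eq χ hχ (1, 0) (u', v')
    rw [m3, ← k3] at s1
    rw [m4] at s2 s3
    have hw := h.sp_at hχ 2 0 rfl
    have g1 := germD r hw z.2 (by omega) (by omega) (by rw [k3]; omega) hD.2
    have c1 : G.Adj (χ (0, 0)) (χ (1, 0)) := χ.map_rel_iff.2 (by rw [adj_iff]; omega)
    have c2 : G.Adj (χ (1, 0)) (χ (2, 0)) := χ.map_rel_iff.2 (by rw [adj_iff]; omega)
    have g2 : χ (1, 0) = φ (1, 0) := by
      have c3 := r.adj _ _ c1
      have c4 := r.adj _ _ c2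
      have c5 := (r.ev (χ (1, 0))).trans (h.sp_iff hχ _)
      rw [m3, ← k3, r.id] at c3
      rw [g1] at c4
      refine r.eq1 _ ?_
      generalize ρ (χ (1, 0)) = s at *
      obtain ⟨s, t⟩ := s
      rw [adj_iff] at c3 c4
      unfold Ev at c5
      refine Prod.ext ?_ ?_ <;> omega
    obtain ⟨ρ', r'⟩ := h.retr' (h.sat φ hφ rfl2)
    have hy' : ρ' y = (2 - (u : ℤ), (v : ℤ)) := by
      rw [← r'.id (2 - u, v), ← k4]
      simp
    have g3 := r'.id (1, 0)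
    have g4 := r'.eq0 (χ (2, 0))
    have g5 := r'.adj0 (χ (2, 0))
    have g6 := r'.l1_1 z
    simp only [cmp_apply, rfl2_apply, sub_zero] at g3 g4 g5 g6
    rw [show (2 - 1 : ℤ) = 1 from rfl] at g3 g6
    have g7 := r'.adj _ _ c2
    rw [g2, g3] at g7
    have g8 : ¬ cox.Adj (0, 0) (ρ' (χ (2, 0))) := fun hh => by
      have := r.adj _ _ (g5 hh)
      rw [g1, r.id] at this
      exact this.ne rfl
    have g9 : ρ' (χ (2, 0)) ≠ (0, 0) := fun hh => hred 2 0 (by omega) (g4 hh)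
    have f1 := r'.l1_le (χ (2, 0)) z
    have f2 := r'.li_le (χ (2, 0)) z hw z.2
    have f3 := r'.l1_le y z
    have f4 := r'.li_le y z y.2 z.2
    rw [hy'] at f3 f4
    rw [← g2] at g6
    have g10 : ρ' (χ (2, 0)) = (2, 0) := by
      generalize ρ' (χ (2, 0)) = s at g7 g8 g9
      obtain ⟨s, t⟩ := s
      rw [adj_iff] at g7 g8
      simp only [ne_eq, Prod.mk.injEq] at g9 ⊢
      omega
    rw [g10] at f1 f2
    have f5 := arE (u' := u') (v' := v') (by omega) (by rw [g6, s3, l1]; omega) (by omega)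
      (by omega) f3 f4
    left
    omega
  · have f5 := arR k1 (q1.trans m6) (q2.trans m5) q3 q4 hA hD
    omega

end BD

end Pool.Agent.MP_1ca372_al.H73
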