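import Pool.Agent.MP_1ca372_al.H73.Geom

/-! From the trilinear bound to property (RD). -/

namespace Pool.Agent.MP_1ca372_al.H73

open scoped ENNReal

universe u v

lemma tsum_ind {α : Type*} (S : Set α) : ∑' w, ind (w ∈ S) = S.encard := by
  rw [← ENNReal.tsum_set_one, tsum_subtype S fun _ => (1 : ℝ≥0∞)]
  refine tsum_congr fun w => ?_
  by_cases h : w ∈ S
  · rw [ind_pos h, Set.indicator_of_mem h]
  · rw [ind_neg h, Set.indicator_of_notMem h]

variable {Γ : Type u} [Group Γ]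

/-- the kernel of a function on the group -/
noncomputable def ker {I : Type v} (o : I) (F : Γ → ℝ≥0∞) (x y : Γ × I) : ℝ≥0∞ :=
  ind (x.2 = o) * ind (y.2 = o) * F (x.1⁻¹ * y.1)

lemma inv_ker {I : Type v} (o : I) (F : Γ → ℝ≥0∞) : Inv2 (ker o F) := by
  rintro γ ⟨g, i⟩ ⟨g', j⟩
  simp [ker, mul_assoc]

omit [Group Γ] in
lemma tsum_at {I : Type v} (o : I) (F : Γ × I → ℝ≥0∞) (h : ∀ y, y.2 ≠ o → F y = 0) :
    ∑' y, F y = ∑' g, F (g, o) := by
  rw [ENNReal.tsum_prod']
  exact tsum_congr fun g => tsum_eq_single o fun j hj => h _ hj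

lemma nrm_ker {I : Type v} (o : I) (F : Γ → ℝ≥0∞) : nrm (ker o F) = rt (∑' g, F g ^ 2) := by
  unfold nrm S2
  rw [tsum_eq_single o fun i hi => by simp [ker, ind_neg hi],
    tsum_at o _ fun y hy => by simp [ker, ind_neg hy]]
  simp [ker, ind_pos]

lemma conv_bound {I : Type v} (o : I) (ℓ : Γ → ℕ) (T : ℕ → Γ × I → Γ × I → Prop)
    (M : ℕ → ℝ≥0∞) (hM : ∀ R, Bd (fun x y _ => T R x y) (M R))
    (hT : ∀ g g', T (ℓ (g⁻¹ * g')) (g, o) (g', o)) (F G : Γ → ℝ≥0∞) :
    ∑' x, (∑' y, F y * G (y⁻¹ * x)) ^ 2 ≤ (∑' R : ℕ, ((1 + R : ℝ≥0∞) ^ 2)⁻¹) *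
      (∑' g, ((1 + ℓ g) * M (ℓ g) * F g) ^ 2) * ∑' g, G g ^ 2 := by
  have h1 : nrm (fun x z => ∑' y, ker o F x y * ker o G y z) ≤
      (∑' R, M R * nrm (ker o fun g => ind (ℓ g = R) * F g)) * nrm (ker o G) := by
    refine dual fun k hk => ?_
    simp only [← ENNReal.tsum_mul_right]
    rw [← S2_comm]
    calc _ ≤ S2 fun x y => ∑' R, ∑' z, ind (T R x y) *
            (ker o (fun g => ind (ℓ g = R) * F g) x y * ker o G y z * k x z) := by
          refine S2_mono fun x y => le_trans ?_ (ENNReal.le_tsum (ℓ (x.1⁻¹ * y.1)))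
          refine ENNReal.tsum_le_tsum fun z => ?_
          obtain ⟨g, i⟩ := x
          obtain ⟨g', j⟩ := y
          by_cases hi : i = o
          · by_cases hj : j = o
            · subst hi hj
              simp [ker, ind_pos (hT g g'), ind_pos]
            · simp [ker, ind_neg hj]
          · simp [ker, ind_neg hi]
      _ ≤ _ := by
          rw [S2_tsum]
          refine ENNReal.tsum_le_tsum fun R => ?_
          have h2 := hM R _ _ _ (inv_ker o fun g => ind (ℓ g = R) * F g) (inv_ker o G) hk.swap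
          rw [nrm_swap hk] at h2
          exact h2.trans_eq (by ring)
  have h2 : ∑' R, M R * nrm (ker o fun g => ind (ℓ g = R) * F g) ≤
      rt (∑' R : ℕ, ((1 + R : ℝ≥0∞) ^ 2)⁻¹) * rt (∑' g, ((1 + ℓ g) * M (ℓ g) * F g) ^ 2) := by
    have h3 := cs (fun R : ℕ => (1 + R : ℝ≥0∞)⁻¹)
      fun R => (1 + R) * M R * nrm (ker o fun g => ind (ℓ g = R) * F g)
    refine le_trans (le_of_eq (tsum_congr fun R => ?_)) (h3.trans (le_of_eq ?_))
    · rw [← mul_assoc, ← mul_assoc, ENNReal.inv_mul_cancel (by simp) (by simp), one_mul]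
    · simp only [ENNReal.inv_pow, nrm_ker, mul_pow _ (rt _), rt_sq, ← ENNReal.tsum_mul_left]
      rw [ENNReal.tsum_comm]
      congr 2
      refine tsum_congr fun g => ?_
      rw [tsum_eq_single (ℓ g) fun R hR => by simp [ind_neg hR.symm], ind_pos rfl]
      ring
  have h3 := pow_le_pow_left' (h1.trans (mul_le_mul' h2 le_rfl)) 2
  rw [nrm_ker, mul_pow, mul_pow, rt_sq, rt_sq, rt_sq, nrm, rt_sq] at h3
  refine le_trans ?_ h3
  refine le_trans ?_ (ENNReal.le_tsum o)
  rw [ENNReal.tsum_prod']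
  refine ENNReal.tsum_le_tsum fun x => le_trans (le_of_eq ?_) (ENNReal.le_tsum o)
  beta_reduce
  rw [tsum_at o _ fun y hy => by simp [ker, ind_neg hy]]
  simp [ker, ind_pos]

lemma rd_real (ℓ : Γ → ℕ) {c : ℝ≥0∞} (hc : c ≠ ⊤) (s : ℕ)
    (h : ∀ F G : Γ → ℝ≥0∞, ∑' x, (∑' y, F y * G (y⁻¹ * x)) ^ 2 ≤
      c * (∑' g, F g ^ 2 * (1 + ℓ g) ^ (2 * s)) * ∑' g, G g ^ 2) (f g : Γ →₀ ℂ) :
    (∑' x : Γ, ‖∑ y ∈ f.support, f y * g (y⁻¹ * x)‖ ^ 2) ≤
      c.toReal * (∑ y ∈ f.support, ‖f y‖ ^ 2 * (1 + (ℓ y : ℝ)) ^ (2 * s)) *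
        ∑ z ∈ g.support, ‖g z‖ ^ 2 := by
  by_cases hs : Summable fun x : Γ => ‖∑ y ∈ f.support, f y * g (y⁻¹ * x)‖ ^ 2
  swap
  · rw [tsum_eq_zero_of_not_summable hs]
    positivity
  rw [← ENNReal.ofReal_le_ofReal_iff (by positivity),
    ENNReal.ofReal_tsum_of_nonneg (fun _ => by positivity) hs]
  refine le_trans ?_ ((h (fun y => ‖f y‖ₑ) fun y => ‖g y‖ₑ).trans (le_of_eq ?_))
  · refine ENNReal.tsum_le_tsum fun x => ?_
    rw [ENNReal.ofReal_pow (norm_nonneg _), ofReal_norm]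
    refine pow_le_pow_left' ((enorm_sum_le _ _).trans ?_) 2
    simp only [enorm_mul]
    exact ENNReal.sum_le_tsum _
  · rw [ENNReal.ofReal_mul (by positivity), ENNReal.ofReal_mul (by positivity),
      ENNReal.ofReal_toReal hc, ENNReal.ofReal_sum_of_nonneg fun _ _ => by positivity,
      ENNReal.ofReal_sum_of_nonneg fun _ _ => by positivity,
      tsum_eq_sum (s := f.support) fun y hy => by simp [Finsupp.notMem_support_iff.1 hy],
      tsum_eq_sum (s := g.support) fun y hy => by simp [Finsupp.notMem_support_iff.1 hy]]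
    congr 2
    · refine Finset.sum_congr rfl fun y _ => ?_
      rw [ENNReal.ofReal_mul (by positivity), ENNReal.ofReal_pow (norm_nonneg _),
        ofReal_norm, ENNReal.ofReal_pow (by positivity),
        ENNReal.ofReal_add zero_le_one (by positivity)]
      simp
    · funext y
      rw [ENNReal.ofReal_pow (norm_nonneg _), ofReal_norm]

lemma zeta_fin : ∑' R : ℕ, ((1 + R : ℝ≥0∞) ^ 2)⁻¹ ≠ ⊤ := by
  have h1 : Summable fun R : ℕ => ((1 + R : ℝ) ^ 2)⁻¹ := by
    have := (summable_nat_add_iff 1).2 (Real.summable_nat_pow_inv.2 one_lt_two)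
    simpa [add_comm] using this
  have h2 := ENNReal.ofReal_tsum_of_nonneg (fun _ => by positivity) h1
  refine ne_of_eq_of_ne (tsum_congr fun R => ?_) (h2 ▸ ENNReal.ofReal_ne_top)
  rw [ENNReal.ofReal_inv_of_pos (by positivity), ENNReal.ofReal_pow (by positivity),
    ENNReal.ofReal_add zero_le_one (by positivity)]
  simp

theorem Geo.rd {I : Type v} {d : VD (Γ × I)} {N : ℕ} (G : Geo d N) (o : I) {n : ℕ}
    (gen : Fin n → Γ) (hgen : ∀ x, ∃ w : List (Fin n), (w.map gen).prod = x) : RD gen := by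
  obtain ⟨A, D, hA, h⟩ := G.main
  set ℓ : Γ → ℕ := fun y => sInf {k : ℕ | ∃ w : List (Fin n), w.length = k ∧ (w.map gen).prod = y}
  set K : ℕ := Finset.univ.sup fun i => d.a (1, o) (gen i, o) + d.b (1, o) (gen i, o)
  have h1 : ∀ (w : List (Fin n)) (g : Γ), d.a (g, o) (g * (w.map gen).prod, o) +
      d.b (g, o) (g * (w.map gen).prod, o) ≤ K * w.length := by
    intro w
    induction w with
    | nil => simp [d.a_self, d.b_self]
    | cons i w ih =>
      intro g
      have h2 := d.tri2 (g, o) (g * gen i, o) (g * gen i * (w.map gen).prod, o)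
      have h3 := ih (g * gen i)
      have h4 : d.a (1, o) (gen i, o) + d.b (1, o) (gen i, o) ≤ K :=
        Finset.le_sup (f := fun i => d.a (1, o) (gen i, o) + d.b (1, o) (gen i, o))
          (Finset.mem_univ i)
      rw [← G.a_inv g, ← G.b_inv g, act_apply, act_apply, mul_one] at h4
      rw [List.map_cons, List.prod_cons, List.length_cons, ← mul_assoc, mul_add]
      omega
  have h2 : ∀ g g', d.a (g, o) (g', o) + d.b (g, o) (g', o) ≤ K * ℓ (g⁻¹ * g') := by
    intro g g'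
    obtain ⟨w, hw⟩ := hgen (g⁻¹ * g')
    obtain ⟨w', k1, k2⟩ := Nat.sInf_mem (s := {k : ℕ | ∃ w : List (Fin n), w.length = k ∧
      (w.map gen).prod = g⁻¹ * g'}) ⟨_, w, rfl, hw⟩
    have h3 := h1 w' g
    rwa [k1, k2, mul_inv_cancel_left] at h3
  refine ⟨_, D + 1, rd_real ℓ (c := (∑' R : ℕ, ((1 + R : ℝ≥0∞) ^ 2)⁻¹) *
    (ENNReal.ofReal A * (1 + K) ^ D) ^ 2) (ENNReal.mul_ne_top zeta_fin (by finiteness)) _
    fun F F' => ?_⟩
  refine (conv_bound o ℓ (fun R x y => d.a x y + d.b x y ≤ K * R) _ (fun R => h (K * R)) h2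
    F F').trans (mul_le_mul' ?_ le_rfl)
  rw [mul_assoc]
  refine mul_le_mul' le_rfl ?_
  rw [← ENNReal.tsum_mul_left]
  refine ENNReal.tsum_le_tsum fun g => ?_
  have h3 : ENNReal.ofReal (A * (1 + (K * ℓ g : ℕ)) ^ D) ≤
      ENNReal.ofReal A * (1 + K) ^ D * (1 + ℓ g) ^ D := by
    rw [ENNReal.ofReal_mul hA, ENNReal.ofReal_pow (by positivity),
      ENNReal.ofReal_add zero_le_one (by positivity), mul_assoc, ← mul_pow, ENNReal.ofReal_one,
      ENNReal.ofReal_natCast]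
    refine mul_le_mul' le_rfl (pow_le_pow_left' ?_ D)
    have h4 : 1 + K * ℓ g ≤ (1 + K) * (1 + ℓ g) := by nlinarith
    exact_mod_cast h4
  calc _ ≤ ((1 + ℓ g) * (ENNReal.ofReal A * (1 + K) ^ D * (1 + ℓ g) ^ D) * F g) ^ 2 := by gcongr
    _ = _ := by ring

theorem rd_of_vd {X : Type v} [MulAction Γ X] (x0 : X) (d : VD X) (N : ℕ)
    (ha : ∀ (γ : Γ) x y, d.a (γ • x) (γ • y) = d.a x y)
    (hb : ∀ (γ : Γ) x y, d.b (γ • x) (γ • y) = d.b x y)
    (hu : ∀ x y w w', d.a x w' = d.a x w → d.b x w' = d.b x w → d.Bt x w y → d.Bt x w' y → w = w')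
    (hball : ∀ x, ∑' y, ind (d.a x y + d.b x y ≤ 1) ≤ N)
    (hstab : ∀ x : X, (MulAction.stabilizer Γ x : Set Γ).encard ≤ N)
    (hcore : ∀ x y z, ∃ x0 y0 z0, d.Core x y z x0 y0 z0) {n : ℕ} (gen : Fin n → Γ)
    (hgen : ∀ x, ∃ w : List (Fin n), (w.map gen).prod = x) : RD gen := by
  set π : Γ × MulAction.orbitRel.Quotient Γ X → X := fun y => y.1 • Quotient.out y.2 with hπ
  have hact : ∀ γ y, π (act γ y) = γ • π y := fun γ y => mul_smul γ y.1 _
  have hq : ∀ y, Quotient.mk _ (π y) = y.2 := fun y =>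
    (Quotient.sound (MulAction.mem_orbit _ y.1)).trans (Quotient.out_eq y.2)
  have hs : Function.Surjective π := fun x => by
    obtain ⟨g, hg⟩ : x ∈ MulAction.orbit Γ (Quotient.out (s := MulAction.orbitRel Γ X) ⟦x⟧) :=
      Quotient.exact (s := MulAction.orbitRel Γ X) (Quotient.out_eq _).symm
    exact ⟨(g, ⟦x⟧), hg⟩
  have hfib : ∀ x, ∑' w, ind (π w = x) ≤ N := by
    intro x
    obtain ⟨⟨g, i⟩, rfl⟩ := hs x
    refine (tsum_ind {w | π w = π (g, i)}).trans_le ?_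
    have h1 : {w | π w = π (g, i)}.encard ≤ N := by
      refine le_trans (Set.encard_le_encard_of_injOn (f := fun w => w.1 * g⁻¹) ?_ ?_)
        (hstab (π (g, i)))
      · rintro ⟨g', j⟩ hw
        obtain rfl : j = i := (hq (g', j)).symm.trans ((congrArg _ hw).trans (hq (g, i)))
        change (g' * g⁻¹) • g • _ = _
        rw [mul_smul, inv_smul_smul]
        exact hw
      · rintro w hw w' hw' h
        exact Prod.ext (mul_right_cancel h)
          ((hq w).symm.trans ((congrArg _ (hw.trans hw'.symm)).trans (hq w')))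
    exact_mod_cast h1
  have hlift : ∀ P : X → Prop, ∑' w, ind (P (π w)) ≤ N * ∑' x, ind (P x) := by
    intro P
    calc _ ≤ ∑' w, ∑' x, ind (π w = x) * ind (P x) := by
          refine ENNReal.tsum_le_tsum fun w => le_trans (le_of_eq ?_) (ENNReal.le_tsum (π w))
          rw [ind_pos rfl, one_mul]
      _ ≤ _ := by
          rw [ENNReal.tsum_comm, ← ENNReal.tsum_mul_left]
          refine ENNReal.tsum_le_tsum fun x => ?_
          rw [ENNReal.tsum_mul_right]
          exact mul_le_mul' (hfib x) le_rfl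
  let d' : VD (Γ × MulAction.orbitRel.Quotient Γ X) :=
    { a := fun x y => d.a (π x) (π y)
      b := fun x y => d.b (π x) (π y)
      a_symm := fun _ _ => d.a_symm _ _
      b_symm := fun _ _ => d.b_symm _ _
      a_self := fun _ => d.a_self _
      b_self := fun _ => d.b_self _
      tri1 := fun _ _ _ => d.tri1 _ _ _
      tri2 := fun _ _ _ => d.tri2 _ _ _
      split := fun x y i j hi hj => hs.exists.1 (d.split _ _ i j hi hj) }
  refine Geo.rd (d := d') (N := (N + 1) * (N + 1)) ⟨by nlinarith, fun γ x y => ?_, fun γ x y => ?_,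
    fun x y i j => ?_, fun x => ?_, fun x y z => ?_⟩ ⟦x0⟧ gen hgen
  · simp only [d', hact, ha]
  · simp only [d', hact, hb]
  · refine (hlift fun w => d.a (π x) w = i ∧ d.b (π x) w = j ∧ d.a w (π y) + i = d.a (π x) (π y) ∧
      d.b w (π y) + j = d.b (π x) (π y)).trans ?_
    rw [Nat.cast_mul]
    refine mul_le_mul' (by simp) ((tsum_ind _).trans_le ?_)
    have h1 : {w | d.a (π x) w = i ∧ d.b (π x) w = j ∧ d.a w (π y) + i = d.a (π x) (π y) ∧
        d.b w (π y) + j = d.b (π x) (π y)}.encard ≤ (N + 1 : ℕ) := by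
      refine le_trans (Set.encard_le_one_iff.2 fun w w' k k' => ?_) (by simp)
      simp only [Set.mem_ofPred_eq] at k k'
      exact hu (π x) (π y) w w' (by omega) (by omega) (by constructor <;> omega)
        (by constructor <;> omega)
    exact_mod_cast h1
  · refine (hlift fun w => d.a (π x) w + d.b (π x) w ≤ 1).trans ?_
    rw [Nat.cast_mul]
    exact mul_le_mul' (by simp) ((hball _).trans (by simp))
  · obtain ⟨x0, y0, z0, g⟩ := hs.exists₃.1 (hcore (π x) (π y) (π z))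
    exact ⟨x0, y0, z0, g.xy, g.xz, g.yz, g.h1, g.h2, g.h3⟩

theorem rd_building {V : Type v} {G : SimpleGraph V} {𝒜 : Set (cox ↪g G)} (h : IsBuilding G 𝒜)
    [MulAction Γ V] (hadj : ∀ (γ : Γ) u v, G.Adj u v → G.Adj (γ • u) (γ • v)) (N : ℕ)
    (hdeg : ∀ v, (G.neighborSet v).encard ≤ N)
    (hstab : ∀ v : V, (MulAction.stabilizer Γ v : Set Γ).encard ≤ N) {n : ℕ} (gen : Fin n → Γ)
    (hgen : ∀ x, ∃ w : List (Fin n), (w.map gen).prod = x) : RD gen := by
  obtain ⟨ℬ, hB⟩ : ∃ ℬ, Bld G ℬ := ⟨_, h.bld⟩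
  obtain ⟨n1, n2, hn⟩ := hB.dists
  have k : BD G ℬ n1 n2 := ⟨hB, fun φ hφ p q => (hn φ hφ p q).1, fun φ hφ p q => (hn φ hφ p q).2⟩
  let iso : Γ → G ≃g G := fun γ => ⟨MulAction.toPerm γ, fun {u v} =>
    ⟨fun huv => by simpa using hadj γ⁻¹ _ _ huv, hadj γ u v⟩⟩
  let : MulAction Γ {v // Sp ℬ v} :=
    { smul := fun γ v => ⟨γ • v.1, (hB.sp_iso (iso γ) v).2 v.2⟩
      one_smul := fun v => Subtype.ext (one_smul Γ v.1)
      mul_smul := fun a b v => Subtype.ext (mul_smul a b v.1) }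
  have hsm : ∀ (γ : Γ) (x : {v // Sp ℬ v}), (γ • x).1 = γ • x.1 := fun _ _ => rfl
  have hn1 : ∀ (γ : Γ) (x y : {v // Sp ℬ v}), n1 (γ • x).1 (γ • y).1 = n1 x y ∧
      n2 (γ • x).1 (γ • y).1 = n2 x y := by
    intro γ x y
    have h1 := k.iso_le (iso γ) x y
    have h2 := k.iso_le (iso γ).symm (iso γ x) (iso γ y)
    rw [RelIso.symm_apply_apply, RelIso.symm_apply_apply] at h2
    exact ⟨le_antisymm (h1.2 x.2 y.2) (h2.2 (γ • x).2 (γ • y).2), le_antisymm h1.1 h2.1⟩
  obtain ⟨φ, hφ, -⟩ := hB.two ∅ ∅ (by simp) (by simp)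
  have hdeg' : ∀ v, ∑' w, ind (G.Adj v w) ≤ N := fun v =>
    (tsum_ind (G.neighborSet v)).trans_le (by exact_mod_cast hdeg v)
  refine rd_of_vd ⟨_, k.sp_at hφ 0 0 rfl⟩ k.vd ((N + 1) * (N + 1)) (fun γ x y => ?_)
    (fun γ x y => ?_) (fun x y w w' => VD.uniq k.vd_zero k.vd_unit) (fun x => ?_) (fun x => ?_)
    (VD.core k.vd_zero k.vd_ang) gen hgen
  · simp only [BD.vd, hn1]
  · simp only [BD.vd, hn1]
  · calc _ ≤ ∑' y : {v // Sp ℬ v}, ∑' c, ind (G.Adj x c) * ind (G.Adj c y) := by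
          refine ENNReal.tsum_le_tsum fun y => ind_le fun hy => ?_
          obtain ⟨ψ, hψ, u, v, k1, k2, k3, k4, k5, k6⟩ := k.nc x.2 y.2
          have k7 := k.vd_n x y
          refine le_trans (le_of_eq ?_) (ENNReal.le_tsum (ψ (1, 0)))
          rw [← k3, ← k4, ind_pos (ψ.map_rel_iff.2 (by rw [adj_iff]; omega)),
            ind_pos (ψ.map_rel_iff.2 (by rw [adj_iff]; omega)), one_mul]
      _ ≤ ∑' y : V, ∑' c, ind (G.Adj x c) * ind (G.Adj c y) :=
          ENNReal.tsum_comp_le_tsum_of_injective Subtype.val_injective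
            fun y => ∑' c, ind (G.Adj x c) * ind (G.Adj c y)
      _ ≤ ∑' c, ind (G.Adj x c) * N := by
          rw [ENNReal.tsum_comm]
          refine ENNReal.tsum_le_tsum fun c => ?_
          rw [ENNReal.tsum_mul_left]
          exact mul_le_mul' le_rfl (hdeg' c)
      _ ≤ _ := by
          rw [ENNReal.tsum_mul_right, Nat.cast_mul]
          exact mul_le_mul' ((hdeg' x).trans (by simp)) (by simp)
  · have h1 : (MulAction.stabilizer Γ x : Set Γ) = MulAction.stabilizer Γ x.1 := by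
      ext γ
      simp only [SetLike.mem_coe, MulAction.mem_stabilizer_iff, Subtype.ext_iff, hsm]
    rw [h1]
    refine (hstab x).trans ?_
    exact_mod_cast (by nlinarith : N ≤ (N + 1) * (N + 1))

/-- a bound on orbit representatives is uniform -/
lemma unif {V : Type v} {G : SimpleGraph V} [MulAction Γ V]
    (hadj : ∀ (γ : Γ) u v, G.Adj u v → G.Adj (γ • u) (γ • v)) (F : Finset V)
    (hF : ∀ v : V, ∃ γ : Γ, γ • v ∈ F) (h1 : ∀ v, (G.neighborSet v).Finite)
    (h2 : ∀ v : V, (MulAction.stabilizer Γ v : Set Γ).Finite) :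
    ∃ N : ℕ, ∀ v, (G.neighborSet v).encard ≤ N ∧ (MulAction.stabilizer Γ v : Set Γ).encard ≤ N := by
  refine ⟨F.sup fun v => (G.neighborSet v).ncard + (MulAction.stabilizer Γ v : Set Γ).ncard,
    fun v => ?_⟩
  obtain ⟨γ, hγ⟩ := hF v
  have h3 := Finset.le_sup (f := fun v => (G.neighborSet v).ncard +
    (MulAction.stabilizer Γ v : Set Γ).ncard) hγ
  constructor
  · refine le_trans (Set.encard_le_encard_of_injOn (f := fun w => γ • w) (t := G.neighborSet (γ • v))
      (fun w hw => hadj γ _ _ hw) (MulAction.injective γ).injOn) ?_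
    rw [← (h1 _).cast_ncard_eq]
    exact_mod_cast le_trans (Nat.le_add_right _ _) h3
  · refine le_trans (Set.encard_le_encard_of_injOn (f := fun w => γ * w * γ⁻¹)
      (t := MulAction.stabilizer Γ (γ • v)) (fun w hw => ?_) fun w _ w' _ h => by simpa using h) ?_
    · change (γ * w * γ⁻¹) • γ • v = γ • v
      rw [mul_smul, inv_smul_smul, mul_smul, show w • v = v from hw]
    · rw [← (h2 _).cast_ncard_eq]
      exact_mod_cast le_trans (Nat.le_add_left _ _) h3

end Pool.Agent.MP_1ca372_al.H73
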