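import Pool.Agent.MP_1ca372_al.H73.Defs

/-! The Coxeter complex: rigidity, symmetries and Lipschitz maps. -/

namespace Pool.Agent.MP_1ca372_al.H73

def Ev (p : ℤ × ℤ) : Prop := (p.1 + p.2) % 2 = 0

lemma adj_iff {a b c d : ℤ} : cox.Adj (a, b) (c, d) ↔ ¬ (a = c ∧ b = d) ∧ a - c ≤ 1 ∧ c - a ≤ 1 ∧
    b - d ≤ 1 ∧ d - b ≤ 1 ∧ (a = c ∨ b = d ∨ (a + b) % 2 = 0) := by
  simp only [cox, ne_eq, Prod.mk.injEq, abs_le, Int.even_iff]
  omega

def l1 (p q : ℤ × ℤ) : ℕ := (p.1 - q.1).natAbs + (p.2 - q.2).natAbs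

def li (p q : ℤ × ℤ) : ℕ := max (p.1 - q.1).natAbs (p.2 - q.2).natAbs

/-- the link of `v` has diameter at most two -/
def Dig {V : Type*} (G : SimpleGraph V) (v : V) : Prop :=
  ∀ a b, G.Adj v a → G.Adj v b → a = b ∨ G.Adj a b ∨ ∃ c, G.Adj c v ∧ G.Adj c a ∧ G.Adj c b

lemma Dig.map {V W : Type*} {G : SimpleGraph V} {H : SimpleGraph W} (g : G ≃g H) {v : V}
    (h : Dig G v) : Dig H (g v) := by
  intro a b ha hb
  obtain ⟨a, rfl⟩ := g.surjective a
  obtain ⟨b, rfl⟩ := g.surjective b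
  rcases h a b (g.map_rel_iff.1 ha) (g.map_rel_iff.1 hb) with h | h | ⟨c, h1, h2, h3⟩
  · exact Or.inl (by rw [h])
  · exact Or.inr (Or.inl (g.map_rel_iff.2 h))
  · exact Or.inr (Or.inr ⟨g c, g.map_rel_iff.2 h1, g.map_rel_iff.2 h2, g.map_rel_iff.2 h3⟩)

lemma dig_iff (p : ℤ × ℤ) : Dig cox p ↔ ¬ Ev p := by
  obtain ⟨x, y⟩ := p
  unfold Ev
  constructor
  · intro h he
    rcases h (x + 1, y) (x - 1, y) (by rw [adj_iff]; omega) (by rw [adj_iff]; omega) with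
      h | h | ⟨⟨c, d⟩, h1, h2, h3⟩
    · simp only [Prod.mk.injEq] at h
      omega
    · rw [adj_iff] at h
      omega
    · rw [adj_iff] at h1 h2 h3
      simp only at he
      omega
  · rintro he ⟨a, b⟩ ⟨c, d⟩ h1 h2
    rw [adj_iff] at h1 h2
    simp only at he
    by_cases h3 : a = c ∧ b = d
    · exact Or.inl (Prod.ext h3.1 h3.2)
    by_cases h4 : a = c ∨ b = d
    · refine Or.inr (Or.inr ⟨(x + (b - y), y + (a - x)), ?_, ?_, ?_⟩) <;> rw [adj_iff] <;> omega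
    · refine Or.inr (Or.inl ?_)
      rw [adj_iff]
      omega

lemma ev_iso (g : cox ≃g cox) (p : ℤ × ℤ) : Ev (g p) ↔ Ev p := by
  have h1 : Dig cox p → Dig cox (g p) := Dig.map g
  have h2 : Dig cox (g p) → Dig cox (g.symm (g p)) := Dig.map g.symm
  rw [g.symm_apply_apply] at h2
  rw [dig_iff, dig_iff] at h1 h2
  tauto

section lip

variable {h : ℤ × ℤ → ℤ × ℤ} (hadj : ∀ p q, cox.Adj p q → cox.Adj (h p) (h q))
  (hev : ∀ p, Ev (h p) ↔ Ev p)
include hadj hev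

lemma lip1 (p q : ℤ × ℤ) : l1 (h p) (h q) ≤ l1 p q := by
  have step : ∀ p p' : ℤ × ℤ, l1 p p' = 1 → l1 (h p) (h p') ≤ 1 := by
    rintro ⟨a, b⟩ ⟨c, d⟩ hp
    unfold l1 at hp
    have h1 := hadj (a, b) (c, d) (by rw [adj_iff]; omega)
    have h2 := hev (a, b)
    have h3 := hev (c, d)
    generalize h (a, b) = s at *
    generalize h (c, d) = t at *
    obtain ⟨s1, s2⟩ := s
    obtain ⟨t1, t2⟩ := t
    rw [adj_iff] at h1
    simp only [Ev, l1] at *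
    omega
  induction hn : l1 p q generalizing p with
  | zero =>
    have : p = q := Prod.ext (by unfold l1 at hn; omega) (by unfold l1 at hn; omega)
    simp [this, l1]
  | succ n ih =>
    have : ∃ p', l1 p p' = 1 ∧ l1 p' q = n := by
      obtain ⟨a, b⟩ := p
      obtain ⟨c, d⟩ := q
      unfold l1 at *
      rcases lt_trichotomy a c with h1 | h1 | h1
      · exact ⟨(a + 1, b), by omega⟩
      · rcases lt_or_ge b d with h2 | h2
        · exact ⟨(a, b + 1), by omega⟩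
        · exact ⟨(a, b - 1), by omega⟩
      · exact ⟨(a - 1, b), by omega⟩
    obtain ⟨p', h1, h2⟩ := this
    have h3 := step p p' h1
    have h4 := ih p' h2
    unfold l1 at *
    omega

omit hev in
lemma lipi (p q : ℤ × ℤ) (hp : Ev p) (hq : Ev q) : li (h p) (h q) ≤ li p q := by
  induction hn : li p q generalizing p with
  | zero =>
    have : p = q := Prod.ext (by unfold li at hn; omega) (by unfold li at hn; omega)
    simp [this, li]
  | succ n ih =>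
    have : ∃ p', cox.Adj p p' ∧ Ev p' ∧ li p' q = n := by
      obtain ⟨a, b⟩ := p
      obtain ⟨c, d⟩ := q
      refine ⟨(if a < c then a + 1 else a - 1, if b < d then b + 1 else b - 1), ?_⟩
      rw [adj_iff]
      simp only [li, Ev] at *
      split_ifs <;> omega
    obtain ⟨p', h1, h2, h3⟩ := this
    have h4 := hadj _ _ h1
    have h5 := ih p' h2 h3
    generalize h p = s at *
    generalize h p' = t at *
    obtain ⟨s1, s2⟩ := s
    obtain ⟨t1, t2⟩ := t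
    rw [adj_iff] at h4
    simp only [li] at *
    omega

end lip

lemma l1_iso (g : cox ≃g cox) (p q : ℤ × ℤ) : l1 (g p) (g q) = l1 p q := by
  refine le_antisymm (lip1 (fun _ _ => g.map_rel_iff.2) (ev_iso g) p q) ?_
  have := lip1 (h := g.symm) (fun _ _ => g.symm.map_rel_iff.2) (ev_iso g.symm) (g p) (g q)
  simpa using this

lemma li_iso (g : cox ≃g cox) {p q : ℤ × ℤ} (hp : Ev p) (hq : Ev q) :
    li (g p) (g q) = li p q := by
  refine le_antisymm (lipi (fun _ _ => g.map_rel_iff.2) p q hp hq) ?_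
  have := lipi (h := g.symm) (fun _ _ => g.symm.map_rel_iff.2) (g p) (g q) ((ev_iso g p).2 hp)
    ((ev_iso g q).2 hq)
  simpa using this

lemma flip (g : cox ≃g cox) {p q r s : ℤ × ℤ} (hp : g p = p) (hq : g q = q) (hr : g r = r)
    (a1 : cox.Adj p s) (a2 : cox.Adj q s) (hne : s ≠ r)
    (hu : ∀ t, cox.Adj p t → cox.Adj q t → t = r ∨ t = s) : g s = s := by
  have b1 := g.map_rel_iff.2 a1
  have b2 := g.map_rel_iff.2 a2
  rw [hp] at b1
  rw [hq] at b2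
  exact (hu _ b1 b2).resolve_left fun h => hne (g.injective (h.trans hr.symm))

lemma rot (g : cox ≃g cox) (x y a b c d e f : ℤ) (he : (x + y) % 2 = 0) (hx : g (x, y) = (x, y))
    (hc : a = 1 ∧ b = 0 ∧ c = 1 ∧ d = 1 ∧ e = 0 ∧ f = 1 ∨
        a = 1 ∧ b = 1 ∧ c = 0 ∧ d = 1 ∧ e = -1 ∧ f = 1 ∨
        a = 0 ∧ b = 1 ∧ c = -1 ∧ d = 1 ∧ e = -1 ∧ f = 0 ∨
        a = -1 ∧ b = 1 ∧ c = -1 ∧ d = 0 ∧ e = -1 ∧ f = -1 ∨
        a = -1 ∧ b = 0 ∧ c = -1 ∧ d = -1 ∧ e = 0 ∧ f = -1 ∨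
        a = -1 ∧ b = -1 ∧ c = 0 ∧ d = -1 ∧ e = 1 ∧ f = -1 ∨
        a = 0 ∧ b = -1 ∧ c = 1 ∧ d = -1 ∧ e = 1 ∧ f = 0 ∨
        a = 1 ∧ b = -1 ∧ c = 1 ∧ d = 0 ∧ e = 1 ∧ f = 1)
    (k : g (x + c, y + d) = (x + c, y + d)) :
    (g (x + a, y + b) = (x + a, y + b) ↔ g (x + e, y + f) = (x + e, y + f)) := by
  have hu : ∀ t, cox.Adj (x, y) t → cox.Adj (x + c, y + d) t →
      t = (x + a, y + b) ∨ t = (x + e, y + f) := by
    rintro ⟨s, t⟩ a1 a2
    rw [adj_iff] at a1 a2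
    simp only [Prod.mk.injEq]
    rcases hc with hc | hc | hc | hc | hc | hc | hc | hc <;> omega
  have h1 : cox.Adj (x, y) (x + a, y + b) ∧ cox.Adj (x + c, y + d) (x + a, y + b) ∧
      cox.Adj (x, y) (x + e, y + f) ∧ cox.Adj (x + c, y + d) (x + e, y + f) ∧
      (x + a, y + b) ≠ (x + e, y + f) := by
    simp only [adj_iff, ne_eq, Prod.mk.injEq]
    rcases hc with hc | hc | hc | hc | hc | hc | hc | hc <;> omega
  exact ⟨fun k' => flip g hx k k' h1.2.2.1 h1.2.2.2.1 h1.2.2.2.2.symm hu,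
    fun k' => flip g hx k k' h1.1 h1.2.1 h1.2.2.2.2 fun t a1 a2 => (hu t a1 a2).symm⟩

lemma cyc8 {p1 p2 p3 p4 p5 p6 p7 p8 : Prop} (r1 : p2 → (p1 ↔ p3)) (r2 : p3 → (p2 ↔ p4))
    (r3 : p4 → (p3 ↔ p5)) (r4 : p5 → (p4 ↔ p6)) (r5 : p6 → (p5 ↔ p7)) (r6 : p7 → (p6 ↔ p8))
    (r7 : p8 → (p7 ↔ p1)) (h : p2 ∧ p1 ∨ p4 ∧ p5 ∨ p6 ∧ p5 ∨ p8 ∧ p1) :
    p1 ∧ p2 ∧ p3 ∧ p4 ∧ p5 ∧ p6 ∧ p7 ∧ p8 := by
  have k : p1 → p2 → p1 ∧ p2 ∧ p3 ∧ p4 ∧ p5 ∧ p6 ∧ p7 ∧ p8 := fun h1 h2 =>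
    have h3 := (r1 h2).1 h1
    have h4 := (r2 h3).1 h2
    have h5 := (r3 h4).1 h3
    have h6 := (r4 h5).1 h4
    have h7 := (r5 h6).1 h5
    ⟨h1, h2, h3, h4, h5, h6, h7, (r6 h7).1 h6⟩
  have k4 : p4 → p5 → (p5 → p3) → p1 ∧ p2 ∧ p3 ∧ p4 ∧ p5 ∧ p6 ∧ p7 ∧ p8 := fun h4 h5 h3 =>
    have h2 := (r2 (h3 h5)).2 h4
    k ((r1 h2).2 (h3 h5)) h2
  have k6 : p6 → p5 → p1 ∧ p2 ∧ p3 ∧ p4 ∧ p5 ∧ p6 ∧ p7 ∧ p8 := fun h6 h5 =>
    have h4 := (r4 h5).2 h6
    k4 h4 h5 (r3 h4).2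
  rcases h with h | h | h | h
  · exact k h.2 h.1
  · exact k4 h.1 h.2 (r3 h.1).2
  · exact k6 h.1 h.2
  · have h7 := (r7 h.1).2 h.2
    have h6 := (r6 h7).2 h.1
    exact k6 h6 ((r5 h6).2 h7)

lemma star (g : cox ≃g cox) (x y : ℤ) (he : (x + y) % 2 = 0) (hx : g (x, y) = (x, y))
    (hc : g (x + 1, y + 1) = (x + 1, y + 1) ∧ g (x + 1, y + 0) = (x + 1, y + 0) ∨
      g (x + -1, y + 1) = (x + -1, y + 1) ∧ g (x + -1, y + 0) = (x + -1, y + 0) ∨
      g (x + -1, y + -1) = (x + -1, y + -1) ∧ g (x + -1, y + 0) = (x + -1, y + 0) ∨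
      g (x + 1, y + -1) = (x + 1, y + -1) ∧ g (x + 1, y + 0) = (x + 1, y + 0))
    (a b : ℤ) (a1 : -1 ≤ a) (a2 : a ≤ 1) (b1 : -1 ≤ b) (b2 : b ≤ 1) :
    g (x + a, y + b) = (x + a, y + b) := by
  obtain ⟨h1, h2, h3, h4, h5, h6, h7, h8⟩ := cyc8 (rot g x y 1 0 1 1 0 1 he hx (by simp))
    (rot g x y 1 1 0 1 (-1) 1 he hx (by simp)) (rot g x y 0 1 (-1) 1 (-1) 0 he hx (by simp))
    (rot g x y (-1) 1 (-1) 0 (-1) (-1) he hx (by simp))
    (rot g x y (-1) 0 (-1) (-1) 0 (-1) he hx (by simp))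
    (rot g x y (-1) (-1) 0 (-1) 1 (-1) he hx (by simp))
    (rot g x y 0 (-1) 1 (-1) 1 0 he hx (by simp)) hc
  have h9 : g (x + 0, y + 0) = (x + 0, y + 0) := by simpa using hx
  interval_cases a <;> interval_cases b <;> assumption

/-- an automorphism fixing a chamber is the identity -/
lemma rigid (g : cox ≃g cox) (h0 : g (0, 0) = (0, 0)) (h1 : g (1, 0) = (1, 0))
    (h2 : g (1, 1) = (1, 1)) (p : ℤ × ℤ) : g p = p := by
  have main : ∀ n : ℕ, ∀ x y : ℤ, (x + y) % 2 = 0 → max x.natAbs y.natAbs = n →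
      ∀ a b : ℤ, -1 ≤ a → a ≤ 1 → -1 ≤ b → b ≤ 1 → g (x + a, y + b) = (x + a, y + b) := by
    intro n
    induction n with
    | zero =>
      intro x y he hn
      obtain rfl : x = 0 := by omega
      obtain rfl : y = 0 := by omega
      exact star g 0 0 he h0 (Or.inl ⟨h2, h1⟩)
    | succ n ih =>
      intro x y he hn
      have key : ∀ s t : ℤ, (s = 1 ∨ s = -1) → (t = 1 ∨ t = -1) →
          max (x + s).natAbs (y + t).natAbs = n → g (x, y) = (x, y) ∧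
            g (x + s, y + t) = (x + s, y + t) ∧ g (x + s, y + 0) = (x + s, y + 0) := by
        intro s t hs ht hm
        have k := ih (x + s) (y + t) (by omega) hm
        have k1 := k (-s) (-t) (by omega) (by omega) (by omega) (by omega)
        have k2 := k 0 0 (by omega) (by omega) (by omega) (by omega)
        have k3 := k 0 (-t) (by omega) (by omega) (by omega) (by omega)
        simp only [add_neg_cancel_right, add_zero] at k1 k2 k3 ⊢
        exact ⟨k1, k2, k3⟩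
      rcases lt_or_ge x 0 with hx | hx <;> rcases lt_or_ge y 0 with hy | hy
      · have k := key 1 1 (by simp) (by simp) (by omega)
        exact star g x y he k.1 (Or.inl k.2)
      · have k := key 1 (-1) (by simp) (by simp) (by omega)
        exact star g x y he k.1 (Or.inr (Or.inr (Or.inr k.2)))
      · have k := key (-1) 1 (by simp) (by simp) (by omega)
        exact star g x y he k.1 (Or.inr (Or.inl k.2))
      · have k := key (-1) (-1) (by simp) (by simp) (by omega)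
        exact star g x y he k.1 (Or.inr (Or.inr (Or.inl k.2)))
  obtain ⟨x, y⟩ := p
  by_cases he : (x + y) % 2 = 0
  · simpa using main _ x y he rfl 0 0 (by omega) (by omega) (by omega) (by omega)
  · simpa using main _ (x - 1) y (by omega) rfl 1 0 (by omega) (by omega) (by omega) (by omega)

/-- translation by an even vector -/
def trans (a b : ℤ) (h : (a + b) % 2 = 0) : cox ≃g cox where
  toEquiv := Equiv.addLeft (a, b)
  map_rel_iff' := by
    rintro ⟨x, y⟩ ⟨z, w⟩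
    simp only [Equiv.coe_addLeft, Prod.mk_add_mk, adj_iff]
    omega

def refl1 : cox ≃g cox where
  toEquiv := (Equiv.neg ℤ).prodCongr (Equiv.refl ℤ)
  map_rel_iff' := by
    rintro ⟨x, y⟩ ⟨z, w⟩
    simp only [Equiv.prodCongr_apply, Equiv.neg_apply, Equiv.coe_refl, Prod.map_apply, id_eq,
      adj_iff]
    omega

def swp : cox ≃g cox where
  toEquiv := Equiv.prodComm ℤ ℤ
  map_rel_iff' := by
    rintro ⟨x, y⟩ ⟨z, w⟩
    simp only [Equiv.prodComm_apply, Prod.swap_prod_mk, adj_iff]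
    omega

@[simp] lemma trans_apply (a b : ℤ) (h : (a + b) % 2 = 0) (x y : ℤ) :
    trans a b h (x, y) = (a + x, b + y) := rfl

@[simp] lemma refl1_apply (x y : ℤ) : refl1 (x, y) = (-x, y) := rfl

@[simp] lemma swp_apply (x y : ℤ) : swp (x, y) = (y, x) := rfl

lemma normal {p q : ℤ × ℤ} (hp : Ev p) :
    ∃ (g : cox ≃g cox) (u v : ℕ), v ≤ u ∧ g (0, 0) = p ∧ g (u, v) = q := by
  have key : ∀ x y : ℤ, ∃ (g : cox ≃g cox) (u v : ℕ), v ≤ u ∧ g (0, 0) = (0, 0) ∧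
      g (u, v) = (x, y) := by
    have k1 : ∀ x y : ℤ, 0 ≤ x → 0 ≤ y → ∃ (g : cox ≃g cox) (u v : ℕ), v ≤ u ∧
        g (0, 0) = (0, 0) ∧ g (u, v) = (x, y) := by
      intro x y hx hy
      lift x to ℕ using hx
      lift y to ℕ using hy
      rcases le_total y x with h | h
      · exact ⟨RelIso.refl _, x, y, h, rfl, rfl⟩
      · exact ⟨swp, y, x, h, rfl, rfl⟩
    have k2 : ∀ x y : ℤ, 0 ≤ y → ∃ (g : cox ≃g cox) (u v : ℕ), v ≤ u ∧
        g (0, 0) = (0, 0) ∧ g (u, v) = (x, y) := by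
      intro x y hy
      rcases le_total 0 x with hx | hx
      · exact k1 x y hx hy
      · obtain ⟨g, u, v, h1, h2, h3⟩ := k1 (-x) y (by omega) hy
        exact ⟨g.trans refl1, u, v, h1, by simp [h2], by simp [h3]⟩
    intro x y
    rcases le_total 0 y with hy | hy
    · exact k2 x y hy
    · obtain ⟨g, u, v, h1, h2, h3⟩ := k2 x (-y) (by omega)
      exact ⟨g.trans (swp.trans (refl1.trans swp)), u, v, h1, by simp [h2], by simp [h3]⟩
  obtain ⟨a, b⟩ := p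
  obtain ⟨c, d⟩ := q
  obtain ⟨g, u, v, h1, h2, h3⟩ := key (c - a) (d - b)
  exact ⟨g.trans (trans a b hp), u, v, h1, by simp [h2], by simp [h3]⟩

end Pool.Agent.MP_1ca372_al.H73
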