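import Pool.Agent.MP_1ca372_al.H73.Model

/-! Retractions and distances in a building. -/

namespace Pool.Agent.MP_1ca372_al.H73

variable {V : Type*} {G : SimpleGraph V} {𝒜 : Set (cox ↪g G)}

/-- a chart composed with a symmetry of the model -/
def cmp (φ : cox ↪g G) (g : cox ≃g cox) : cox ↪g G := φ.comp g.toEmbedding

@[simp] lemma cmp_apply (φ : cox ↪g G) (g : cox ≃g cox) (p : ℤ × ℤ) : cmp φ g p = φ (g p) := rfl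

lemma range_cmp (φ : cox ↪g G) (g : cox ≃g cox) : Set.range (cmp φ g) = Set.range φ :=
  g.surjective.range_comp φ

/-- a building whose set of charts is stable under the symmetries of the model -/
structure Bld (G : SimpleGraph V) (𝒜 : Set (cox ↪g G)) : Prop extends IsBuilding G 𝒜 where
  sat : ∀ φ ∈ 𝒜, ∀ g, cmp φ g ∈ 𝒜

lemma IsBuilding.bld (h : IsBuilding G 𝒜) : Bld G {ψ | ∃ φ ∈ 𝒜, ∃ g, ψ = cmp φ g} where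
  two A B hA hB := by
    obtain ⟨φ, h1, h2⟩ := h.two A B hA hB
    exact ⟨_, ⟨φ, h1, RelIso.refl _, rfl⟩, by rwa [range_cmp]⟩
  iso := by
    rintro _ ⟨φ, h1, g, rfl⟩ _ ⟨ψ, h2, k, rfl⟩ A B hA hB h3 h4
    rw [range_cmp] at h3 h4
    obtain ⟨m, hm⟩ := h.iso φ h1 ψ h2 A B hA hB h3 h4
    refine ⟨(g.trans m).trans k.symm, fun p hp => ?_⟩
    simpa using hm (g p) hp
  sat := by
    rintro _ ⟨φ, h1, g, rfl⟩ k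
    exact ⟨φ, h1, k.trans g, rfl⟩

/-- the two charts agree on the fundamental chamber -/
def Agr (φ ψ : cox ↪g G) : Prop := ψ (0, 0) = φ (0, 0) ∧ ψ (1, 0) = φ (1, 0) ∧ ψ (1, 1) = φ (1, 1)

lemma clique_ch (φ : cox ↪g G) : G.IsClique {φ (0, 0), φ (1, 0), φ (1, 1)} := by
  have h1 : G.Adj (φ (0, 0)) (φ (1, 0)) := φ.map_rel_iff.2 (by rw [adj_iff]; omega)
  have h2 : G.Adj (φ (0, 0)) (φ (1, 1)) := φ.map_rel_iff.2 (by rw [adj_iff]; omega)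
  have h3 : G.Adj (φ (1, 0)) (φ (1, 1)) := φ.map_rel_iff.2 (by rw [adj_iff]; omega)
  rintro a (rfl | rfl | rfl) b (rfl | rfl | rfl) h <;>
    first | exact absurd rfl h | assumption | exact G.adj_symm ‹_›

/-- special vertices -/
def Sp (𝒜 : Set (cox ↪g G)) (v : V) : Prop := ∃ φ ∈ 𝒜, ∃ p, Ev p ∧ φ p = v

namespace Bld

variable (h : Bld G 𝒜)
include h

lemma agr {φ : cox ↪g G} (hφ : φ ∈ 𝒜) {B : Set V} (hB : G.IsClique B) :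
    ∃ ψ ∈ 𝒜, Agr φ ψ ∧ B ⊆ Set.range ψ := by
  obtain ⟨ψ, h1, h2⟩ := h.two _ B (clique_ch φ) hB
  obtain ⟨g, hg⟩ := h.iso φ hφ ψ h1 _ ∅ (clique_ch φ) (by simp)
    (by rintro a (((rfl | rfl | rfl)) | h) <;> simp_all)
    (by rw [Set.union_empty]; exact Set.subset_union_left.trans h2)
  refine ⟨cmp ψ g, h.sat ψ h1 g, ⟨hg _ (by simp), hg _ (by simp), hg _ (by simp)⟩, ?_⟩
  rw [range_cmp]
  exact Set.subset_union_right.trans h2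

lemma pair {φ ψ : cox ↪g G} (hφ : φ ∈ 𝒜) (hψ : ψ ∈ 𝒜) {p q p' q' : ℤ × ℤ} (h1 : φ p = ψ p')
    (h2 : φ q = ψ q') : ∃ g : cox ≃g cox, g p = p' ∧ g q = q' := by
  obtain ⟨g, hg⟩ := h.iso φ hφ ψ hψ {φ p} {φ q} (by simp) (by simp)
    (by rintro a (rfl | rfl) <;> simp) (by rintro a (rfl | rfl) <;> simp [h1, h2])
  exact ⟨g, ψ.injective ((hg p (by simp)).trans h1), ψ.injective ((hg q (by simp)).trans h2)⟩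

lemma agr_eq {φ ψ : cox ↪g G} (hφ : φ ∈ 𝒜) (hψ : ψ ∈ 𝒜) (ha : Agr φ ψ) {p q : ℤ × ℤ}
    (h1 : φ p = ψ q) : p = q := by
  obtain ⟨g, hg⟩ := h.iso φ hφ ψ hψ _ {φ p} (clique_ch φ) (by simp)
    (by rintro a (((rfl | rfl | rfl)) | rfl) <;> simp)
    (by
      rintro a (((rfl | rfl | rfl)) | rfl)
      exacts [⟨_, ha.1⟩, ⟨_, ha.2.1⟩, ⟨_, ha.2.2⟩, ⟨_, h1.symm⟩])
  have h2 := rigid g (ψ.injective ((hg _ (by simp)).trans ha.1.symm))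
    (ψ.injective ((hg _ (by simp)).trans ha.2.1.symm))
    (ψ.injective ((hg _ (by simp)).trans ha.2.2.symm)) p
  exact h2.symm.trans (ψ.injective ((hg p (by simp)).trans h1))

lemma sp_iff {φ : cox ↪g G} (hφ : φ ∈ 𝒜) (p : ℤ × ℤ) : Sp 𝒜 (φ p) ↔ Ev p := by
  refine ⟨?_, fun hp => ⟨φ, hφ, p, hp, rfl⟩⟩
  rintro ⟨ψ, hψ, q, hq, h1⟩
  obtain ⟨g, hg, -⟩ := h.pair hψ hφ h1 h1
  rw [← hg]
  exact (ev_iso g q).2 hq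

lemma chart (u v : V) : ∃ φ ∈ 𝒜, ∃ p q, φ p = u ∧ φ q = v := by
  obtain ⟨φ, h1, h2⟩ := h.two {u} {v} (by simp) (by simp)
  obtain ⟨p, hp⟩ := h2 (Or.inl rfl)
  obtain ⟨q, hq⟩ := h2 (Or.inr rfl)
  exact ⟨φ, h1, p, q, hp, hq⟩

/-- existence of the two distances -/
lemma dists : ∃ n1 n2 : V → V → ℕ, ∀ φ ∈ 𝒜, ∀ p q,
    n2 (φ p) (φ q) = l1 p q ∧ (Ev p → Ev q → n1 (φ p) (φ q) = li p q) := by
  choose φ hφ p q hp hq using h.chart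
  refine ⟨fun u v => li (p u v) (q u v), fun u v => l1 (p u v) (q u v), fun ψ hψ s t => ?_⟩
  obtain ⟨g, h1, h2⟩ := h.pair hψ (hφ (ψ s) (ψ t)) (hp _ _).symm (hq _ _).symm
  simp only [← h1, ← h2]
  exact ⟨l1_iso g s t, li_iso g⟩

/-- the retraction centred at the fundamental chamber of a chart -/
lemma retr {φ : cox ↪g G} (hφ : φ ∈ 𝒜) : ∃ ρ : V → ℤ × ℤ, (∀ p, ρ (φ p) = p) ∧
    (∀ u v, G.Adj u v → cox.Adj (ρ u) (ρ v)) ∧ (∀ v, Ev (ρ v) ↔ Sp 𝒜 v) ∧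
    ∀ v, ∃ ψ ∈ 𝒜, Agr φ ψ ∧ ψ (ρ v) = v := by
  have h1 : ∀ v, ∃ p, ∃ ψ ∈ 𝒜, Agr φ ψ ∧ ψ p = v := by
    intro v
    obtain ⟨ψ, h1, h2, h3⟩ := h.agr hφ (B := {v}) (by simp)
    obtain ⟨p, hp⟩ := h3 rfl
    exact ⟨p, ψ, h1, h2, hp⟩
  choose ρ hρ using h1
  have h2 : ∀ ψ ∈ 𝒜, Agr φ ψ → ∀ p, ρ (ψ p) = p := by
    intro ψ hψ ha p
    obtain ⟨χ, k1, k2, k3⟩ := hρ (ψ p)
    exact h.agr_eq k1 hψ ⟨ha.1.trans k2.1.symm, ha.2.1.trans k2.2.1.symm,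
      ha.2.2.trans k2.2.2.symm⟩ k3
  refine ⟨ρ, h2 φ hφ ⟨rfl, rfl, rfl⟩, fun u v huv => ?_, fun v => ?_, hρ⟩
  · obtain ⟨ψ, k1, k2, k3⟩ := h.agr hφ (B := {u, v}) (SimpleGraph.isClique_pair.2 fun _ => huv)
    obtain ⟨p, rfl⟩ := k3 (Or.inl rfl)
    obtain ⟨q, rfl⟩ := k3 (Or.inr rfl)
    rw [h2 ψ k1 k2, h2 ψ k1 k2]
    exact ψ.map_rel_iff.1 huv
  · obtain ⟨ψ, k1, -, k3⟩ := hρ v
    rw [← h.sp_iff k1, k3]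

lemma norm_chart {x : V} (hx : Sp 𝒜 x) (y : V) :
    ∃ φ ∈ 𝒜, ∃ u v : ℕ, v ≤ u ∧ φ (0, 0) = x ∧ φ (u, v) = y := by
  obtain ⟨φ, hφ, p, q, rfl, rfl⟩ := h.chart x y
  obtain ⟨g, u, v, h1, h2, h3⟩ := normal (q := q) ((h.sp_iff hφ p).1 hx)
  exact ⟨cmp φ g, h.sat φ hφ g, u, v, h1, by simp [h2], by simp [h3]⟩

lemma dig_iff (v : V) : Dig G v ↔ ¬ Sp 𝒜 v := by
  constructor
  · intro hd hv
    obtain ⟨φ, hφ, -, -, -, rfl, -⟩ := h.norm_chart hv v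
    obtain ⟨ρ, r1, r2, -⟩ := h.retr hφ
    refine (H73.dig_iff (0, 0)).1 (fun a b ha hb => ?_) rfl
    rcases hd (φ a) (φ b) (φ.map_rel_iff.2 ha) (φ.map_rel_iff.2 hb) with h1 | h1 | ⟨c, h1, h2, h3⟩
    · exact Or.inl (φ.injective h1)
    · exact Or.inr (Or.inl (φ.map_rel_iff.1 h1))
    · exact Or.inr (Or.inr ⟨ρ c, r1 (0, 0) ▸ r2 _ _ h1, r1 a ▸ r2 _ _ h2, r1 b ▸ r2 _ _ h3⟩)
  · intro hv a b ha hb
    obtain ⟨φ, hφ, h2⟩ := h.two {v, a} {v, b} (SimpleGraph.isClique_pair.2 fun _ => ha)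
      (SimpleGraph.isClique_pair.2 fun _ => hb)
    obtain ⟨p, rfl⟩ := h2 (Or.inl (Or.inl rfl))
    obtain ⟨q, rfl⟩ := h2 (Or.inl (Or.inr rfl))
    obtain ⟨r, rfl⟩ := h2 (Or.inr (Or.inr rfl))
    rw [h.sp_iff hφ] at hv
    rcases (H73.dig_iff p).2 hv q r (φ.map_rel_iff.1 ha) (φ.map_rel_iff.1 hb) with
      h1 | h1 | ⟨c, h1, h2, h3⟩
    · exact Or.inl (by rw [h1])
    · exact Or.inr (Or.inl (φ.map_rel_iff.2 h1))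
    · exact Or.inr (Or.inr ⟨φ c, φ.map_rel_iff.2 h1, φ.map_rel_iff.2 h2, φ.map_rel_iff.2 h3⟩)

lemma sp_iso (γ : G ≃g G) (v : V) : Sp 𝒜 (γ v) ↔ Sp 𝒜 v := by
  have h1 : Dig G v → Dig G (γ v) := Dig.map γ
  have h2 : Dig G (γ v) → Dig G (γ.symm (γ v)) := Dig.map γ.symm
  rw [γ.symm_apply_apply] at h2
  rw [h.dig_iff, h.dig_iff] at h1 h2
  tauto

end Bld

/-- a building with its two distances -/
structure BD (G : SimpleGraph V) (𝒜 : Set (cox ↪g G)) (n1 n2 : V → V → ℕ) : Prop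
    extends Bld G 𝒜 where
  n2_eq : ∀ φ ∈ 𝒜, ∀ p q, n2 (φ p) (φ q) = l1 p q
  n1_eq : ∀ φ ∈ 𝒜, ∀ p q, Ev p → Ev q → n1 (φ p) (φ q) = li p q

/-- the properties of a retraction -/
structure Retr (𝒜 : Set (cox ↪g G)) (n1 n2 : V → V → ℕ) (φ : cox ↪g G) (ρ : V → ℤ × ℤ) :
    Prop where
  id : ∀ p, ρ (φ p) = p
  adj : ∀ u v, G.Adj u v → cox.Adj (ρ u) (ρ v)
  ev : ∀ v, Ev (ρ v) ↔ Sp 𝒜 v
  l1_le : ∀ u v, l1 (ρ u) (ρ v) ≤ n2 u v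
  li_le : ∀ u v, Sp 𝒜 u → Sp 𝒜 v → li (ρ u) (ρ v) ≤ n1 u v
  l1_0 : ∀ v, l1 (0, 0) (ρ v) = n2 (φ (0, 0)) v
  l1_1 : ∀ v, l1 (1, 0) (ρ v) = n2 (φ (1, 0)) v
  li_0 : ∀ v, Sp 𝒜 v → li (0, 0) (ρ v) = n1 (φ (0, 0)) v
  eq0 : ∀ v, ρ v = (0, 0) → v = φ (0, 0)
  eq1 : ∀ v, ρ v = (1, 0) → v = φ (1, 0)
  eq2 : ∀ v, ρ v = (1, 1) → v = φ (1, 1)
  adj0 : ∀ v, cox.Adj (0, 0) (ρ v) → G.Adj (φ (0, 0)) v
  adj1 : ∀ v, cox.Adj (1, 0) (ρ v) → G.Adj (φ (1, 0)) v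

namespace BD

variable {n1 n2 : V → V → ℕ} (h : BD G 𝒜 n1 n2)
include h

lemma lip {f : V → ℤ × ℤ} (h1 : ∀ u v, G.Adj u v → cox.Adj (f u) (f v))
    (h2 : ∀ v, Ev (f v) ↔ Sp 𝒜 v) (u v : V) :
    l1 (f u) (f v) ≤ n2 u v ∧ (Sp 𝒜 u → Sp 𝒜 v → li (f u) (f v) ≤ n1 u v) := by
  obtain ⟨φ, hφ, p, q, rfl, rfl⟩ := h.chart u v
  have k1 : ∀ p q, cox.Adj p q → cox.Adj (f (φ p)) (f (φ q)) := fun p q hpq =>
    h1 _ _ (φ.map_rel_iff.2 hpq)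
  rw [h.n2_eq φ hφ, h.sp_iff hφ, h.sp_iff hφ]
  refine ⟨lip1 (h := fun p => f (φ p)) k1 (fun p => by rw [h2, h.sp_iff hφ]) p q, fun hp hq => ?_⟩
  rw [h.n1_eq φ hφ p q hp hq]
  exact lipi (h := fun p => f (φ p)) k1 p q hp hq

lemma retr' {φ : cox ↪g G} (hφ : φ ∈ 𝒜) : ∃ ρ, Retr 𝒜 n1 n2 φ ρ := by
  obtain ⟨ρ, r1, r2, r3, r4⟩ := h.retr hφ
  refine ⟨ρ, r1, r2, r3, fun u v => (h.lip r2 r3 u v).1, fun u v => (h.lip r2 r3 u v).2,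
    fun v => ?_, fun v => ?_, fun v hv => ?_, fun v hv => ?_, fun v hv => ?_, fun v hv => ?_,
    fun v hv => ?_, fun v hv => ?_⟩ <;> obtain ⟨ψ, k1, k2, k3⟩ := r4 v
  · rw [← h.n2_eq ψ k1, k3, k2.1]
  · rw [← h.n2_eq ψ k1, k3, k2.2.1]
  · rw [← h.n1_eq ψ k1 (0, 0) _ rfl ((r3 v).2 hv), k3, k2.1]
  · rw [← k3, hv, k2.1]
  · rw [← k3, hv, k2.2.1]
  · rw [← k3, hv, k2.2.2]
  · rw [← k3, ← k2.1]
    exact ψ.map_rel_iff.2 hv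
  · rw [← k3, ← k2.2.1]
    exact ψ.map_rel_iff.2 hv

lemma iso_le (γ : G ≃g G) (u v : V) :
    n2 (γ u) (γ v) ≤ n2 u v ∧ (Sp 𝒜 u → Sp 𝒜 v → n1 (γ u) (γ v) ≤ n1 u v) := by
  obtain ⟨φ, hφ, p, q, hp, hq⟩ := h.chart (γ u) (γ v)
  obtain ⟨ρ, r⟩ := h.retr' hφ
  have k := h.lip (f := fun v => ρ (γ v)) (fun u v huv => r.adj _ _ (γ.map_rel_iff.2 huv))
    (fun v => by rw [r.ev, h.sp_iso]) u v
  simp only [← hp, ← hq, r.id] at k ⊢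
  rw [h.n2_eq φ hφ]
  refine ⟨k.1, fun hu hv => ?_⟩
  rw [h.n1_eq φ hφ p q (by rw [← h.sp_iff hφ, hp, h.sp_iso]; exact hu)
    (by rw [← h.sp_iff hφ, hq, h.sp_iso]; exact hv)]
  exact k.2 hu hv

lemma tri (x y z : V) : n2 x z ≤ n2 x y + n2 y z ∧
    (Sp 𝒜 x → Sp 𝒜 y → Sp 𝒜 z → n1 x z ≤ n1 x y + n1 y z) := by
  obtain ⟨φ, hφ, p, q, rfl, rfl⟩ := h.chart x z
  obtain ⟨ρ, r⟩ := h.retr' hφ
  constructor
  · have h1 := r.l1_le (φ p) y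
    have h2 := r.l1_le y (φ q)
    rw [r.id] at h1 h2
    rw [h.n2_eq φ hφ]
    unfold l1 at *
    omega
  · intro hx hy hz
    have h1 := r.li_le (φ p) y hx hy
    have h2 := r.li_le y (φ q) hy hz
    rw [r.id] at h1 h2
    rw [h.n1_eq φ hφ p q ((h.sp_iff hφ p).1 hx) ((h.sp_iff hφ q).1 hz)]
    unfold li at *
    omega

end BD

end Pool.Agent.MP_1ca372_al.H73
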